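import Pool.Agent.Helper14.W5.Defs

/-!
# Project W5: Hecke operators and the dimension chain (any odd prime `p`)

Models: the modules with the same names of projects CV and W3 (`Pool/Agent/Helper*/W3/M_*.lean`). The translations `t^i = (p i; 0 p)` do not normalise
`Γ₀(p^n)` for `p ≥ 5`, so here only the sums over `i` occur.
-/

set_option autoImplicit false

namespace Pool.Agent.Helper14.W5

open Pool.Agent.Helper14.CV (Homog EqC act Tl StFar StFex)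
open Pool.Agent.Helper28.WK (SymP Tw evw Ok)

/-- HK. Hecke sum over any system of representatives (`StN1` with `N = p^n`). Model: `S3Hk` of W3. -/
def SPHk : Prop := ∀ (p : ℕ), p.Prime → ∀ (R : Type) (_ : AddCommGroup R) (n l : ℕ) (G : ℤ → ℤ → R),
  l.Prime → l ≠ p → SymP p 0 n G → ∀ δ : Fin (l + 1) → Matrix (Fin 2) (Fin 2) ℤ,
  (∀ P, (δ P).det = l) → (∀ P, (p : ℤ) ^ n ∣ δ P 1 0) →
  (∀ P P', P ≠ P' → ¬ ∀ i j, (l : ℤ) ∣ (δ P * (δ P').adjugate) i j) →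
  EqC (fun x y => ∑ P, G (δ P 0 0 * x + δ P 0 1 * y) (δ P 1 0 * x + δ P 1 1 * y)) (Tl l 1 G)

/-- HKS. `T_l` preserves symbols (from HK, with `δ_P γ`). Model: `S3HkS`. -/
def SPHkS : Prop := ∀ (p : ℕ), p.Prime → ∀ (R : Type) (_ : AddCommGroup R) (n : ℕ) (G : ℤ → ℤ → R),
  SymP p 0 n G → ∀ l : ℕ, l.Prime → l ≠ p → SymP p 0 n (Tl l 1 G)

/-- HKW. `T_l` commutes with the Fricke involution `W = (0 -1; p^n 0)` (from HK, `W δ_P W⁻¹`) and with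
`* = (-1 0; 0 1)`. Models: `S3HkW`, `S3HkT`. -/
def SPHkW : Prop := ∀ (p : ℕ), p.Prime → ∀ (R : Type) (_ : AddCommGroup R) (n : ℕ) (G : ℤ → ℤ → R),
  SymP p 0 n G → ∀ l : ℕ, l.Prime → l ≠ p →
    EqC (Tl l 1 (act 0 (-1) ((p : ℤ) ^ n) 0 G)) (act 0 (-1) ((p : ℤ) ^ n) 0 (Tl l 1 G)) ∧
    EqC (Tl l 1 (act (-1) 0 0 1 G)) (act (-1) 0 0 1 (Tl l 1 G))

/-- EV. `W` exchanges the two ends of `{0, ∞}`: the values at words change sign; `*` fixes them (induction on the word with HKS, HKW; `EqC.Tl`, `Homog`).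
Model: `S3Ev`. -/
def SPEv : Prop := ∀ (p : ℕ), p.Prime → ∀ (R : Type) (_ : AddCommGroup R) (n : ℕ) (G : ℤ → ℤ → R),
  SymP p 0 n G → ∀ ls : List ℕ, Ok p ls →
  evw 1 ls (act 0 (-1) ((p : ℤ) ^ n) 0 G) = -evw 1 ls G ∧ evw 1 ls (act (-1) 0 0 1 G) = evw 1 ls G

/-- The sum over the translations by `i/p`. -/
def tS (p : ℕ) (G : ℤ → ℤ → ℂ) : ℤ → ℤ → ℂ := ∑ i ∈ Finset.range p, act p i 0 p G

/-- The sum over the lower translations `(1 0; i p^(n-1) 1)`. -/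
def sS (p n : ℕ) (G : ℤ → ℤ → ℂ) : ℤ → ℤ → ℂ :=
  ∑ i ∈ Finset.range p, act 1 0 (i * (p : ℤ) ^ (n - 1)) 1 G

/-- AVG (`n ≥ 2`, `N = p^n`, `M = p^(n-1)`, `p ∣ M`). Convention: `act M (act M' G) = act (M' M) G`. (a) `tS`, `sS` preserve symbols of level `p^n`; (b) `sS G` has level `p^(n-1)`; (c) so has
`act W (tS G)`, `W = (0 -1; N 0)`; (d) `W` and `*` preserve symbols of level `p^n`. Proof. (b) For `γ = (a b; c d)` of determinant one with `M ∣ c` (so `p ∤ a d`) and every `i` there is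
`i'` with `σ^i γ = γ' σ^{i'}`, `γ'` in `Γ₀(N)`, `σ = (1 0; M 1)`: the lower left entry of `σ^i γ σ^{-i'}` is `iMa + c - i'M(iMb + d) ≡ M (i a + c/M - i' d)` modulo `N`; `i ↦ i'` is a permutation modulo
`p`, and `σ^p` is in `Γ₀(N)`; so `(sS G)∘γ ≈ sS G`. It implies (a) for `sS`. For `tS`: `(p i; 0 p) γ = γ' (p i'; 0 p)` for `γ = (a b; c d)` in `Γ₀(N)`, with
`γ' = (a + ic/p, b + (i d - i' a)/p - i i' c/p²; c, d - i' c/p)`, which is integral in `Γ₀(N)` if `i' a ≡ i d` modulo `p` (`n ≥ 2`). (c) `(p i; 0 p) W = W (p 0; -iN p)` up to a scalar: `W⁻¹ t^i W` is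
`(1 0; -iN/p 1)`, so `act W (tS G) = ∑ G∘t^i∘W = ∑ (G∘W)∘σ^{-i}`, which is `≈ sS (G∘W)` (reindex `-i` modulo `p`). -/
def SPAvg : Prop := ∀ (p : ℕ), p.Prime → ∀ (n : ℕ) (G : ℤ → ℤ → ℂ), 2 ≤ n → SymP p 0 n G →
  SymP p 0 n (tS p G) ∧ SymP p 0 (n - 1) (sS p n G) ∧
  SymP p 0 (n - 1) (act 0 (-1) ((p : ℤ) ^ n) 0 (tS p G)) ∧
  SymP p 0 n (act 0 (-1) ((p : ℤ) ^ n) 0 G) ∧ SymP p 0 n (act (-1) 0 0 1 G)

/-- MON. A symbol of level `p^m` is one of level `p^n`, `n ≥ m`. -/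
def SPMon : Prop := ∀ (p : ℕ) (R : Type) (_ : AddCommGroup R) (m n : ℕ) (G : ℤ → ℤ → R), m ≤ n →
  SymP p 0 m G → SymP p 0 n G

/-- COM (`n ≥ 3`). Relations up to constants, each from an identity of integral matrices up to a scalar and an element of `Γ₀(p^n)` on the left (`SymP.mem`). `t^i t^j` is `t^(i+j)`
up to the scalar `p`, `t^(i+p) = (1 1; 0 1) t^i`, `σ^i σ^j = σ^(i+j)`, `σ^p ∈ Γ₀(p^n)`; `t^i σ^j (σ^j t^i)⁻¹ = (1 + ijM/p + i²j²M²/p², -i²jM/p²; ij²M²/p, 1 - ijM/p)` in `Γ₀(p^n)` for `n ≥ 3`;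
`W t^i` is `σ^{-i} W`, `W σ^i` is `t^{-i} W` up to a scalar; `* t^i = t^{-i} *`, `* σ^i = σ^{-i} *`, `* W = - W *`; sums over all residues modulo `p` may be reindexed. -/
def SPCom : Prop := ∀ (p : ℕ), p.Prime → ∀ (n : ℕ) (G : ℤ → ℤ → ℂ), 3 ≤ n → SymP p 0 n G →
  EqC (tS p (tS p G)) ((p : ℂ) • tS p G) ∧
  EqC (sS p n (sS p n G)) ((p : ℂ) • sS p n G) ∧
  EqC (tS p (sS p n G)) (sS p n (tS p G)) ∧
  EqC (tS p (act 0 (-1) ((p : ℤ) ^ n) 0 G)) (act 0 (-1) ((p : ℤ) ^ n) 0 (sS p n G)) ∧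
  EqC (sS p n (act 0 (-1) ((p : ℤ) ^ n) 0 G)) (act 0 (-1) ((p : ℤ) ^ n) 0 (tS p G)) ∧
  EqC (tS p (act (-1) 0 0 1 G)) (act (-1) 0 0 1 (tS p G)) ∧
  EqC (sS p n (act (-1) 0 0 1 G)) (act (-1) 0 0 1 (sS p n G)) ∧
  EqC (act 0 (-1) ((p : ℤ) ^ n) 0 (act 0 (-1) ((p : ℤ) ^ n) 0 G)) G ∧
  EqC (act (-1) 0 0 1 (act (-1) 0 0 1 G)) G ∧
  EqC (act 0 (-1) ((p : ℤ) ^ n) 0 (act (-1) 0 0 1 G)) (act (-1) 0 0 1 (act 0 (-1) ((p : ℤ) ^ n) 0 G))

/-- B3a (from AVG, MON, COM, EV). Decomposition: every symbol of level `p^n` (`n ≥ 3`) has the same values at words as a symbol of level `p^(n-1)` plus a new symbol with `W = -1`, `* = 1`. Proof: put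
`A = tS G / p`, `B = G - A`, `C = sS B / p`, `E = B - C`, `F = (E - E∘W)/2`, `G1 = (F + F∘*)/2`. By COM `tS A ≈ p A`, `tS B ≈ 0`, `tS C ≈ 0`, `tS E ≈ 0`, `sS E ≈ 0`, the same for `E∘W`, `F`, `G1`; so `G1` is a
`NewSymP`; by AVG `A∘W` and `C` have level `p^(n-1)`; by EV `evw A = -evw (A∘W)`, `evw E = evw F = evw G1` at all words. So `G0 = C - A∘W`. Model: `S3B3a`. -/
def SPB3a : Prop := ∀ (p : ℕ), p.Prime → ∀ (n : ℕ) (G : ℤ → ℤ → ℂ), 3 ≤ n → SymP p 0 n G →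
  ∃ G0 G1 : ℤ → ℤ → ℂ, SymP p 0 (n - 1) G0 ∧ NewSymP p n G1 ∧
    ∀ ls : List ℕ, Ok p ls → evw 1 ls G = evw 1 ls G0 + evw 1 ls G1

/-- B3b (from EV, FAR of CV). Level 25: the values at words of all symbols are multiples of one vector. Proof: `H = (G - G∘W)/2`, then `H⁺ = (H + H∘*)/2` has the same values (EV) and satisfies
`H⁺∘W ≈ -H⁺`, `H⁺∘* ≈ H⁺` (matrix identities, `W W = -25`, `* W = -W *`). If two such `H, H'` are given, `K = x' H - x H'` with `x = H(1,0) - H(0,1)`, `x' = H'(1,0) - H'(0,1)` satisfies `K(1,0) = K(0,1)`,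
`K∘W ≈ -K`, `K∘* ≈ K`; such a `K` is constant: let `K2(p,q) = K(p, 5q) - K(1,0)`, a symbol for the group `Γ'` of all `(a b; c d)` of determinant one with `5 ∣ b`, `5 ∣ c`, with `K2∘S ≈ -K2`
(`S = (0 -1; 1 0)`), `K2∘* ≈ K2`, `K2(0) = K2(∞) = 0`, so `K2∘S = -K2`, `K2∘* = K2` exactly. For `γ` in `Γ'` `K2∘γ = K2 + c(γ)`, and `c(γ) = 0` if `γ` fixes a cusp or `γ² = -1`. Values:
`K2(-1) = K2(1)` (`*`) and `K2(-1) = -K2(1)` (`-1 = S 1`): `K2(1) = 0`. `(7 -10; 5 -7)` (square `-1`) maps `1 ↦ 3/2`, `2 ↦ 4/3`; `(6 -5; 5 -4)` (fixes `1`) maps `1/2 ↦ 4/3`: so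
`K2(3/2) = 0`, `K2(1/2) = K2(4/3) = K2(2)`; `1/2 = S(-2)`: `K2(1/2) = -K2(-2) = -K2(2)`: so `K2(2) = K2(1/2) = 0`; `3 = -2 + 5`: `K2(3) = 0`; `K2(1/3) = -K2(3) = 0`, `K2(2/3) = -K2(3/2) = 0`, and
the same for the negatives (`*`). FAR: `K2(g 0) = K2(g ∞)` for every `g` in `SL₂(ℤ)`: it depends only on the class `Γ' g`, given by the two rows of `g` modulo `5` up to scalars, thirty classes, with the
representatives (`a b c d`): `1 j 0 1`, `0 -1 1 j` (`j = 0, ±1, ±2`), `1 0 j 1` (`j = ±1, ±2`), `1 1 -1 0`, `1 1 1 2`, `1 1 -2 -1`, `1 1 -3 -2`, `2 -1 1 0`, `1 2 -1 -1`, `1 -3 1 -2`, `2 -1 -1 1`, `2 1 -1 0`,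
`2 1 1 1`, `1 -2 -1 3`, `1 -2 1 -1`, `1 -1 1 0`, `1 -1 -2 3`, `1 -1 2 -1`, `1 -1 -1 2`, whose cusps `a/c`, `b/d` are all in the list above (`3/2`, `2/3` etc. up to sign). -/
def S5B3b : Prop := ∃ e : List ℕ → ℂ, ∀ G : ℤ → ℤ → ℂ, SymP 5 0 2 G → ∃ x : ℂ,
  ∀ ls : List ℕ, Ok 5 ls → evw 1 ls G = x * e ls

/-- UB. The space of new symbols modulo constants has dimension at most `dd5 n` (`n ≥ 3`). -/
def S5UB : Prop := ∀ n : ℕ, 3 ≤ n → ∃ Θ : NSP 5 n →ₗ[ℂ] (Fin (dd5 n) → ℂ),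
  ∀ G : NSP 5 n, Θ G = 0 → EqC (G : ℤ → ℤ → ℂ) 0

/-- LB. The image of `evLP 5` has dimension at least `DD5 n` (`n ≥ 3`). -/
def S5LB : Prop := ∀ n : ℕ, 3 ≤ n → ∃ G : Fin (DD5 n) → (ℤ → ℤ → ℂ), (∀ k, SymP 5 0 n (G k)) ∧
  LinearIndependent ℂ (fun k => evLP 5 (G k))

/-- Core: a new symbol of level `5^n` with `W = -1`, `* = +1` which is killed by all words is constant. -/
def S5Core : Prop := ∀ (n : ℕ) (G : ℤ → ℤ → ℂ), 3 ≤ n → NewSymP 5 n G →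
  (∀ ls : List ℕ, Ok 5 ls → evw 1 ls G = 0) → EqC G 0

/-- CORE. Proof from B3a, B3b, UB, LB as in projects CV, W3 (base of the induction: level `2`, where `finrank ≤ 1` by B3b and `DD5 2 = 1`; `evLP 5` only sees words with `Ok 5`).
Model: `Pool.Agent.Helper22.CV.hCoreOf` and its W3 copy. -/
def S5CoreOf : Prop := SPB3a → S5B3b → S5UB → S5LB → S5Core

/-- FINAL. With the analytic statements of project WK for `A = 0` (weight `2 = 2·0 + 2`, definitionally) and `StA6` of CV. Let `f` be a newform of level `5^n`, `n ≥ 3`, root number `+1`, and suppose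
`Lan f (1/2) = 0`. SKA4 gives the potentials `I`; put `G p q = I p q 0 + I (-p) q 0`. Symbol of level `(0,n)`: SKMod and SKP2 with `κ = 1` (`mp 0 a b c d 0 = 1`, `pr I 1 = I · · 0`); `-p`: the
matrix `(a -b; -c d)`. Hecke: SKH3 (`WT 0 l 1 I p q 0 = Tl l 1 (cp I 0) p q`; for `-p` use `m = -1`, so `Tl l (-1)`, equal to `Tl l 1` after `j ↦ -j` modulo `l`, with `I (p+q) q 0 = I p q 0`: exact because the
constant vanishes at `(1,0)`), so words act by scalars and `evw 1 ls G = lam (G 1 0 - G 0 1) = 0` (SKA5, `SKA4`). `tS`: SKN4, SKP5 (`j = 0`). `sS`: SKP6. Fricke: SKA8, SKP4. So `NewSymP 5 n G` and `G ≈ 0` by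
S5Core. `2 π i I · · 0` is the potential `IsPot` of `f` (`Fp f z = 2 π i EK f 0 z`), so `f = 0` by `StA6`, against `a_1 = 1`. -/
def S5Final : Prop := ∀ (n : ℕ) (f : CuspForm (Pool.Agent.Helper14.CV.G0 (5 ^ n)) 2), 3 ≤ n →
  Pool.Agent.Helper14.WK.IsNewformK 5 n f → Pool.Agent.Helper14.CV.RootOne f →
  Pool.Agent.Helper14.CV.Lan f (1 / 2) ≠ 0

end Pool.Agent.Helper14.W5
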