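import Pool.Agent.Helper14.W5.StC

/-!
# Project W5 (level `5^n`): lower bound, operator calculus on plane functions modulo 5

Models: the statements of `Helper78/W3/StD.lean` (level `3^n`) and the modules `Pool/Agent/*/W3/M_*.lean` with the same names. The plane is `ZMod q × ZMod q'`, `q = 5^r`, `q' = 5^s` (`μ = 0`). A matrix
`m = (a b; 5c d)` with `a`, `d` prime to `5` (of any determinant) acts on the right by `(x, y) m = ((b + d x)/(a + 5 c x), (c + a y)/(d + 5 b y))`; `tr5 a b c d F` is the function `p ↦ F (p m)`.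
`T = (1 1; 0 1)`, `B = (1 0; 5 1)`, `τ2 = (2 -1; 5 -2)` (swaps the cusps `0` and `1/2`), `τ3 = (3 -2; 5 -3)` (swaps `1/2` and `1`); `τ2² = τ3² = -1`.
-/

set_option autoImplicit false

namespace Pool.Agent.Helper14.W5

open Pool.Agent.Helper14.CV (Homog EqC act Tl StFar StFex)
open Pool.Agent.Helper28.WK (SymP Tw evw Ok)

/-- Right translation by `(a b; 5c d)`. -/
def tr5 {R : Type} (a b c d : ℤ) {q q' : ℕ} (F : ZMod q → ZMod q' → R) : ZMod q → ZMod q' → R :=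
  fun x y => F (((b : ZMod q) + d * x) * ((a : ZMod q) + 5 * c * x)⁻¹)
    (((c : ZMod q') + a * y) * ((d : ZMod q') + 5 * b * y)⁻¹)

/-- TRM. Composition law, identity, homogeneity. (`(p m) m' = p (m m')`, `m m' = (a a' + 5 b c', a b' + b d'; 5 (c a' + d c'), 5 c b' + d d')`;
denominators are units of `ZMod (5^r)`.) -/
def S5Trm : Prop := ∀ (R : Type) (r s : ℕ) (F : ZMod (5 ^ r) → ZMod (5 ^ s) → R),
  (∀ a b c d a' b' c' d' : ℤ, ¬ 5 ∣ a → ¬ 5 ∣ d → ¬ 5 ∣ a' → ¬ 5 ∣ d' →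
    tr5 a b c d (tr5 a' b' c' d' F) =
      tr5 (a * a' + 5 * b * c') (a * b' + b * d') (c * a' + d * c') (5 * c * b' + d * d') F) ∧
  tr5 1 0 0 1 F = F ∧
  (∀ k a b c d : ℤ, ¬ 5 ∣ k → ¬ 5 ∣ a → ¬ 5 ∣ d → tr5 (k * a) (k * b) (k * c) (k * d) F = tr5 a b c d F)

/-- TRE (from EDG, PLA). Values on translated paths: for `γ = (a b; 5c d)` of determinant one the path from `γ v` to `γ u` at the point `p` is the
path from `v` to `u` at `p γ` (if `g` has coordinates `p` then `g γ` has coordinates `p γ`). -/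
def S5Tre : Prop := ∀ (R : Type) (_ : AddCommGroup R) (r s : ℕ) (G : ℤ → ℤ → R), SymP 5 r (s + 1) G →
  ∀ (a b c d u1 u2 v1 v2 : ℤ), a * d - 5 * b * c = 1 → (u1 ≠ 0 ∨ u2 ≠ 0) → (v1 ≠ 0 ∨ v2 ≠ 0) →
  ∀ (x : ZMod (5 ^ r)) (y : ZMod (5 ^ s)),
  edge5 0 (a * u1 + b * u2) (5 * c * u1 + d * u2) (a * v1 + b * v2) (5 * c * v1 + d * v2) G x y =
    tr5 a b c d (edge5 0 u1 u2 v1 v2 G) x y

/-- The denominators of the end points. -/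
def e5 : Fin 2 → ℤ := ![0, 2]

/-- The two plane functions of a symbol: `F0(g) = G(g∞) - G(g0)`, `F1(g) = G(g½) - G(g0)`. -/
noncomputable def pf5 {R : Type} [AddCommGroup R] {q q' : ℕ} (G : ℤ → ℤ → R) (i : Fin 2) :
    ZMod q → ZMod q' → R := fun x y => edge5 0 1 (e5 i) 0 1 G x y

/-- The relations between the two functions: `F1 + F1∘τ2 = 0` and, for
`k = F0 - F0∘T - F1` (path from `1/2` to `1`), `k + k∘τ3 = 0`. -/
def Rel5 {R : Type} [AddCommGroup R] {q q' : ℕ} (F : Fin 2 → ZMod q → ZMod q' → R) : Prop :=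
  (∀ x y, F 1 x y + tr5 2 (-1) 1 (-2) (F 1) x y = 0) ∧
  ∀ x y, F 0 x y - tr5 1 1 0 1 (F 0) x y - F 1 x y +
    (tr5 3 (-2) 1 (-3) (F 0) x y - tr5 3 1 1 2 (F 0) x y - tr5 3 (-2) 1 (-3) (F 1) x y) = 0

/-- REL (from TRE). The plane functions of a symbol satisfy the relations. With `g` of coordinates `p`: `F1(p) = G(g½) - G(g0)`, `τ2` swaps `0` and `½`; `F0(p) - F0(pT) = G(g1) - G(g0)` (`T` fixes `∞`, maps `0` to `1`),
so `k(p) = G(g1) - G(g½)`, and `τ3` swaps `½` and `1`; `τ3 T = (3 1; 5 2)`. -/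
def S5Rel : Prop := ∀ (R : Type) (_ : AddCommGroup R) (r s : ℕ) (G : ℤ → ℤ → R),
  SymP 5 r (s + 1) G → Rel5 (fun i => (pf5 G i : ZMod (5 ^ r) → ZMod (5 ^ s) → R))

/-- EX (from TRM, PLA, EDG, FEX, FAR of CV). Every solution of the relations comes from a symbol. Proof. For `g = (a b; c d)` in `SL₂(ℤ)` define `E g` (the value on the path from `g0` to `g∞`) by the class `(c : d)` modulo `5`; for
`γ = (a b; 5c' d)` let `p(γ) = (b/a, c'/d)`; `g S = (b -a; d -c)`; `k = F0 - F0∘T - F1`.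
`5 ∣ c`: `E g = F0(p(g))`. `5 ∣ d`: `E g = -E(gS)`. `c ≡ d`: `E g = F0(p(γ)) - F0(p(γ T))`, `γ = g (1 0; -1 1)` (path `γ{0,1}`). `c ≡ -d`: `E g = -E(gS)` (`gS` is in the class `c ≡ d`). `c ≡ 2d`: `E g = F1(p(γ))`, `γ = g (1 0; -2 1)` (path `γ{0,½}`).
`c ≡ 3d`: `E g = k(p(γ))`, `γ = g (2 -1; -1 1)` (path `γ{½,1}`). `E(gS) = -E g`: for the last two classes (which `S` preserves) `γ` is replaced by `γ τ2`, `γ τ3`: this is Rel5. `E(-g) = E g`. Triangle relation of FEX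
(`E g = E (g (1 1; 0 1)) + E (g (1 0; 1 1))`): up to the rotations of the triangle `g{0,1,∞}` (and `S`) there are two classes, `5 ∣ c` (`F0(γ) = F0(γT) + (F0(γ) - F0(γT))`), and `c ≡ d` (`F0(γ) - F0(γT) = k(γ) + F1(γ)`: the triangle `γ{0,½,1}`).
(Or check the six classes of `(c : d)` directly.) `E` is invariant under left multiplication by the group of the symbol (coordinates do not change), so `G∘γ ≈ G` by FAR. Model: `Helper78/W3/M_Ex.lean`. -/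
def S5Ex : Prop := ∀ (R : Type) (_ : AddCommGroup R) (r s : ℕ)
  (F : Fin 2 → ZMod (5 ^ r) → ZMod (5 ^ s) → R), Rel5 F →
  ∃ G : ℤ → ℤ → R, SymP 5 r (s + 1) G ∧ ∀ i, pf5 G i = F i

/-- UNI (from EDG/TRE, FAR). A symbol with `F0 = F1 = 0` is constant: `G` has the same value at `g∞, g0, g½, g1` (`1 = T 0`, `g∞ = gT∞`) for every `g = (a b; 5c d)`, and every matrix of
`SL₂(ℤ)` is `g ρ` or `g ρ S` with `ρ` one of `1, (1 0; 1 1), (1 0; 2 1), (1 1; 1 2)` (see EX). -/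
def S5Uni : Prop := ∀ (R : Type) (_ : AddCommGroup R) (r s : ℕ) (G : ℤ → ℤ → R),
  SymP 5 r (s + 1) G → (∀ i, (pf5 G i : ZMod (5 ^ r) → ZMod (5 ^ s) → R) = 0) → EqC G 0

/-- HKB. Hecke sums for balanced levels `(r, s)` (from SPHk by `G0(p,q) = G(5^r p, q)`, which is a symbol
of level `(0, r+s)`, `G(p,q) = G0(p, 5^r q)`; `δ` becomes `(a, b/5^r; 5^r c, d)`), and `T_l` preserves
symbols (in the same way). Hypothesis: `SPHk` of `W5/StB.lean` (proved). -/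
def S5HkB : Prop := ∀ (R : Type) (_ : AddCommGroup R) (r s l : ℕ) (G : ℤ → ℤ → R), l.Prime →
  l ≠ 5 → SymP 5 r s G → SymP 5 r s (Tl l (5 ^ r) G) ∧
  ∀ δ : Fin (l + 1) → Matrix (Fin 2) (Fin 2) ℤ,
  (∀ P, (δ P).det = l) → (∀ P, (5 : ℤ) ^ r ∣ δ P 0 1) → (∀ P, (5 : ℤ) ^ s ∣ δ P 1 0) →
  (∀ P P', P ≠ P' → ¬ ∀ i j, (l : ℤ) ∣ (δ P * (δ P').adjugate) i j) →
  EqC (fun p q => ∑ P, G (δ P 0 0 * p + δ P 0 1 * q) (δ P 1 0 * p + δ P 1 1 * q))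
    (Tl l (5 ^ r) G)

/-- HKF (from HKB, EDG, PLA). Hecke formula on the plane for the path from `v` to `u`. `J` is a complete system of residues modulo `l`. For `g` with
coordinates `(x,y)` use in HKB the family `δ = g_j (1 j; 0 l) g⁻¹`, `j ∈ J`, and `g_∞ (l 0; 0 1) g⁻¹`, where `g_j` is the standard matrix with coordinates
`((x-j)/l, l y/(1-5jy))` (this is `(x,y) (l -j; 0 1)`) and `g_∞` the one with coordinates `(l x, y/l)` (this is `(x,y)(1 0; 0 l)`): both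
`g_j (1 j; 0 l)` and `g_∞ (l 0; 0 1)` have plane coordinates `(x, y)`, so `δ` satisfies the congruences. Then `G(δ g u) = G(g_j (1 j; 0 l) u)`. -/
def S5HkF : Prop := ∀ (R : Type) (_ : AddCommGroup R) (r s l : ℕ) (G : ℤ → ℤ → R) (J : Finset ℤ),
  l.Prime → l ≠ 5 → SymP 5 r (s + 1) G → J.card = l →
  (∀ j ∈ J, ∀ j' ∈ J, (l : ℤ) ∣ j - j' → j = j') →
  ∀ (u1 u2 v1 v2 : ℤ), (u1 ≠ 0 ∨ u2 ≠ 0) → (v1 ≠ 0 ∨ v2 ≠ 0) → ∀ (x : ZMod (5 ^ r)) (y : ZMod (5 ^ s)),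
  edge5 0 u1 u2 v1 v2 (Tl l (5 ^ r) G) x y =
    tr5 1 0 0 l (edge5 0 (l * u1) u2 (l * v1) v2 G) x y +
    ∑ j ∈ J, tr5 l (-j) 0 1 (edge5 0 (u1 + j * u2) (l * u2) (v1 + j * v2) (l * v2) G) x y

/-! ### Operators on functions with values in `ZMod 5` -/

/-- Plane functions modulo 5. -/
abbrev Fn5 (q q' : ℕ) : Type := ZMod q → ZMod q' → ZMod 5

/-- The operator of `(a b; 5c d)`. -/
def op5 (a b c d : ℤ) {q q' : ℕ} : Module.End (ZMod 5) (Fn5 q q') where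
  toFun F := tr5 a b c d F
  map_add' _ _ := rfl
  map_smul' _ _ := rfl

/-- A term `(k, a, b, c, d)` stands for `k` times the operator of `(a b; 5c d)`. -/
abbrev Tm : Type := ℤ × ℤ × ℤ × ℤ × ℤ

/-- The operator of a list of terms. -/
def opL (L : List Tm) {q q' : ℕ} : Module.End (ZMod 5) (Fn5 q q') :=
  (L.map fun t => ((t.1 : ℤ) : ZMod 5) • op5 t.2.1 t.2.2.1 t.2.2.2.1 t.2.2.2.2).sum

/-- Product of two terms. -/
def mulT (t t' : Tm) : Tm :=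
  (t.1 * t'.1, t.2.1 * t'.2.1 + 5 * t.2.2.1 * t'.2.2.2.1, t.2.1 * t'.2.2.1 + t.2.2.1 * t'.2.2.2.2,
    t.2.2.2.1 * t'.2.1 + t.2.2.2.2 * t'.2.2.2.1, 5 * t.2.2.2.1 * t'.2.2.1 + t.2.2.2.2 * t'.2.2.2.2)

/-- Product of two lists. -/
def mulL (L L' : List Tm) : List Tm := L.flatMap fun t => L'.map fun t' => mulT t t'

/-- The list multiplied by an integer. -/
def sclL (n : ℤ) (L : List Tm) : List Tm := L.map fun t => (n * t.1, t.2)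

/-- The term has `a`, `d` prime to `5`. -/
abbrev Gd (t : Tm) : Prop := t.2.1 % 5 ≠ 0 ∧ t.2.2.2.2 % 5 ≠ 0

/-- The two relations as rows of two lists: `relL ρ f`. -/
def relL : Fin 2 → Fin 2 → List Tm
  | 0, 0 => []
  | 0, 1 => [(1, 1, 0, 0, 1), (1, 2, -1, 1, -2)]
  | 1, 0 => [(1, 1, 0, 0, 1), (-1, 1, 1, 0, 1), (1, 3, -2, 1, -3), (-1, 3, 1, 1, 2)]
  | 1, 1 => [(-1, 1, 0, 0, 1), (-1, 3, -2, 1, -3)]

/-- The rows of `T_2`: `F_i(T_2 G) = ∑_f (T2L i f) F_f(G)`. -/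
def T2L : Fin 2 → Fin 2 → List Tm
  | 0, 0 => [(1, 1, 0, 0, 2), (1, 2, -1, 0, 1), (1, 2, 0, 0, 1)]
  | 0, 1 => [(-1, 2, -1, 0, 1)]
  | 1, 0 => [(1, 1, 0, 0, 2), (-1, 1, 1, 0, 2), (-1, 2, -2, 1, -4), (1, 2, -1, 0, 1), (1, 2, 0, 1, 1), (-1, 2, 1, 0, 1), (1, 3, -1, 1, -1), (-1, 3, 2, 1, 4)]
  | 1, 1 => [(-1, 2, -1, 0, 1)]

/-- The rows of `T_3`. -/
def T3L : Fin 2 → Fin 2 → List Tm
  | 0, 0 => [(-1, 1, -1, 1, -2), (1, 1, 0, 0, 3), (1, 1, 0, 1, 3), (1, 3, -1, 0, 1), (1, 3, 0, 0, 1), (1, 3, 1, 0, 1)]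
  | 0, 1 => [(1, 1, -1, 1, -2), (-1, 2, -1, 1, -1)]
  | 1, 0 => [(-1, 1, -1, 1, -2), (1, 1, 0, 0, 3), (1, 1, 0, 1, 3), (-1, 1, 1, 0, 3), (-1, 2, -3, 1, -6), (1, 2, -1, 1, -1), (1, 3, 0, 1, 1), (-1, 3, 3, 1, 6)]
  | 1, 1 => [(1, 1, -1, 1, -2), (1, 1, 1, 0, 3), (-1, 2, -1, 1, -1), (1, 3, -1, 0, 1)]

/-- Product of two matrices of lists. -/
def mmL (A B : Fin 2 → Fin 2 → List Tm) (i f : Fin 2) : List Tm :=
  mulL (A i 0) (B 0 f) ++ mulL (A i 1) (B 1 f)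

/-- `c` times the identity matrix. -/
def idL (c : ℤ) (i f : Fin 2) : List Tm := if i = f then [(c, 1, 0, 0, 1)] else []

/-- The rows of `T_2² + 1`. -/
def UL (i f : Fin 2) : List Tm := mmL T2L T2L i f ++ idL 1 i f

/-- The rows of `T_3² - 2 T_2 T_3 - 2`. -/
def VL (i f : Fin 2) : List Tm := mmL T3L T3L i f ++ sclL (-2) (mmL T2L T3L i f) ++ idL (-2) i f

/-- The first row of `T_2² - T_2 - 1`. -/
def OL (f : Fin 2) : List Tm := mmL T2L T2L 0 f ++ sclL (-1) (T2L 0 f) ++ idL (-1) 0 f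

/-- HK2 (from HKF, TRE, TRM). The rows of `T_2`: HKF with `l = 2`, `J = {0, 1}`. Values of Farey edges: `γ{0,∞}`: `F0(γ)`, `γ{0,½}`: `F1(γ)`, `γ{0,1}`: `F0(γ) - F0(γT)`, `γ{½,1}`: `F0(γ) - F0(γT) - F1(γ)`, for `γ = (a b; 5c d)`
(`{v, w}` is the path from `v` to `w`, value `G(w) - G(v)`). Row 0, path `{0,∞}`: `(l 0; 0 1)`: `{0,∞}`; `j = 0`: `{0,∞}`; `j = 1`: `{½,∞} = {0,∞} - {0,½}`. Row 1, path `{0,½}`: `(l 0; 0 1)`: `{0,1}`; `j = 0`: `{0,¼} = -γ{0,1}`,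
`γ = (1 -1; 5 -4)`, `γT = (1 0; 5 1)`; `j = 1`: `{½,¾} = {½,1} + γ{0,1}`, `γ = (4 -1; 5 -1)`, `γT = (4 3; 5 4)`. Multiply with the matrices `(1 0; 0 2)`, `(2 -j; 0 1)` of HKF by TRM; matrices up to sign (TRM). -/
def S5Hk2 : Prop := ∀ (r s : ℕ) (G : ℤ → ℤ → ZMod 5), SymP 5 r (s + 1) G → ∀ i : Fin 2,
  (pf5 (Tl 2 (5 ^ r) G) i : Fn5 (5 ^ r) (5 ^ s)) = ∑ f : Fin 2, opL (T2L i f) (pf5 G f)

/-- HK3 (from HKF, TRE, TRM). The rows of `T_3`: HKF with `l = 3`, `J = {-1, 0, 1}`; Farey edges as in HK2. Row 0, path `{0,∞}`: `(l 0; 0 1)`: `{0,∞}`; `j = 0`: `{0,∞}`; `j = 1`: `{⅓,∞} = {0,∞} - {0,⅓}`,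
`{0,⅓} = γ{½,1}`, `γ = (2 -1; 5 -2)`; `j = -1`: `{-⅓,∞} = {0,∞} - {0,-⅓}`, `{0,-⅓} = γ{0,½}`, `γ = (1 0; -5 1)`. Row 1, path `{0,½}`: `(l 0; 0 1)`: `{0,3/2} = {0,1} + T{0,½}`; `j = 0`: `{0,1/6} = γ{0,1}`, `γ = (1 0; 5 1)`,
`γT = (1 1; 5 6)`; `j = 1`: `{⅓,½} = {0,½} - {0,⅓}`; `j = -1`: `{-⅓,-1/6} = {0,-1/6} - {0,-⅓}`, `{0,-1/6} = -γ{0,1}`, `γ = (1 -1; -5 6)`, `γT = (1 0; -5 1)`. Multiply with `(1 0; 0 3)`, `(3 -j; 0 1)`; matrices up to sign. The lists of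
HK2 and HK3 were tested by machine (they preserve the relations and commute). -/
def S5Hk3 : Prop := ∀ (r s : ℕ) (G : ℤ → ℤ → ZMod 5), SymP 5 r (s + 1) G → ∀ i : Fin 2,
  (pf5 (Tl 3 (5 ^ r) G) i : Fn5 (5 ^ r) (5 ^ s)) = ∑ f : Fin 2, opL (T3L i f) (pf5 G f)

/-- Difference in `x`. -/
def dX {q q' : ℕ} : Module.End (ZMod 5) (Fn5 q q') where
  toFun F x y := F (x + 1) y - F x y
  map_add' F G := by funext x y; simp only [Pi.add_apply]; ring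
  map_smul' c F := by funext x y; simp only [Pi.smul_apply, smul_eq_mul, RingHom.id_apply]; ring

/-- Difference in `y`. -/
def dY {q q' : ℕ} : Module.End (ZMod 5) (Fn5 q q') where
  toFun F x y := F x (y + 1) - F x y
  map_add' F G := by funext x y; simp only [Pi.add_apply]; ring
  map_smul' c F := by funext x y; simp only [Pi.smul_apply, smul_eq_mul, RingHom.id_apply]; ring

/-- `F ↦ F(x + 1, y/(1 + 5y))`. -/
def oA {q q' : ℕ} : Module.End (ZMod 5) (Fn5 q q') := op5 1 1 0 1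

/-- `F ↦ F(x/(1 + 5x), y + 1)`. -/
def oB {q q' : ℕ} : Module.End (ZMod 5) (Fn5 q q') := op5 1 0 1 1

/-- `F ↦ F(6x, y/6)`. -/
def oD {q q' : ℕ} : Module.End (ZMod 5) (Fn5 q q') := op5 1 0 0 6

/-- Fourth roots of unity modulo `25`. -/
def om4 : Fin 4 → ℤ := ![1, 7, -1, -7]

/-- `F ↦ F(om x, y/om)`. -/
def oW (w : Fin 4) {q q' : ℕ} : Module.End (ZMod 5) (Fn5 q q') := op5 1 0 0 (om4 w)

/-- Functions of degree at most `d` (`0` for `d < 0`). -/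
def Wd5 {q q' : ℕ} (d : ℤ) : Submodule (ZMod 5) (Fn5 q q') where
  carrier := {F | ∀ i j : ℕ, d < (i : ℤ) + j →
    ((dX ^ i * dY ^ j : Module.End (ZMod 5) (Fn5 q q')) F) = 0}
  add_mem' h h' := by intro i j hij; rw [map_add, h i j hij, h' i j hij, add_zero]
  zero_mem' := by intro i j _; exact map_zero _
  smul_mem' c F h := by intro i j hij; rw [map_smul, h i j hij, smul_zero]

/-- The operator lowers degrees by at least `k`. -/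
def Lw {q q' : ℕ} (O : Module.End (ZMod 5) (Fn5 q q')) (k : ℤ) : Prop :=
  ∀ (d : ℤ) (F : Fn5 q q'), F ∈ Wd5 d → O F ∈ Wd5 (d - k)

/-- The leading operator of `T_2² + 1`. -/
def Qo {q q' : ℕ} : Module.End (ZMod 5) (Fn5 q q') := (2 : ZMod 5) • (dX * dY)

/-- The leading operator of `T_3² - 2 T_2 T_3 - 2`. -/
def Lo {q q' : ℕ} : Module.End (ZMod 5) (Fn5 q q') :=
  (3 : ZMod 5) • (dX * dY * (dX ^ 2 + dY ^ 2) ^ 2)

/-- The leading operator of `T_2² - T_2 - 1` at the origin in degree 4. -/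
def Mo {q q' : ℕ} : Module.End (ZMod 5) (Fn5 q q') :=
  (4 : ZMod 5) • (dX * dY * (dX ^ 2 + dX * dY + dY ^ 2))

/-- LOW0. `Lw` is compatible with sums, products, smaller lowering; `Wd5` is increasing; `dX`, `dY`
commute and lower by `1`; every function has finite degree; the identity is `Lw 0`. Model: `S3Low0`. -/
def S5Low0 : Prop := ∀ (r s : ℕ),
  (∀ (O O' : Module.End (ZMod 5) (Fn5 (5 ^ r) (5 ^ s))) (k k' : ℤ), Lw O k → Lw O' k' →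
    Lw (O * O') (k + k')) ∧
  (∀ (O O' : Module.End (ZMod 5) (Fn5 (5 ^ r) (5 ^ s))) (k : ℤ), Lw O k → Lw O' k →
    Lw (O + O') k) ∧
  (∀ (O : Module.End (ZMod 5) (Fn5 (5 ^ r) (5 ^ s))) (c : ZMod 5) (k : ℤ), Lw O k → Lw (c • O) k) ∧
  (∀ (O : Module.End (ZMod 5) (Fn5 (5 ^ r) (5 ^ s))) (k k' : ℤ), k' ≤ k → Lw O k → Lw O k') ∧
  (∀ d d' : ℤ, d ≤ d' → (Wd5 d : Submodule (ZMod 5) (Fn5 (5 ^ r) (5 ^ s))) ≤ Wd5 d') ∧
  Lw (1 : Module.End (ZMod 5) (Fn5 (5 ^ r) (5 ^ s))) 0 ∧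
  Lw (dX : Module.End (ZMod 5) (Fn5 (5 ^ r) (5 ^ s))) 1 ∧
  Lw (dY : Module.End (ZMod 5) (Fn5 (5 ^ r) (5 ^ s))) 1 ∧
  (dX * dY : Module.End (ZMod 5) (Fn5 (5 ^ r) (5 ^ s))) = dY * dX ∧
  (dX ^ (5 ^ r) : Module.End (ZMod 5) (Fn5 (5 ^ r) (5 ^ s))) = 0 ∧
  (dY ^ (5 ^ s) : Module.End (ZMod 5) (Fn5 (5 ^ r) (5 ^ s))) = 0 ∧
  (∀ F : Fn5 (5 ^ r) (5 ^ s), F ∈ Wd5 ((5 : ℤ) ^ r + 5 ^ s - 2)) ∧
  (∀ F : Fn5 (5 ^ r) (5 ^ s), F ∈ Wd5 0 → ∀ x y, F x y = F 0 0) ∧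
  (∀ F : Fn5 (5 ^ r) (5 ^ s), F ∈ Wd5 (-1) → F = 0)

/-- PRD. Product rule: degrees add. `dX (F G) = dX F * (G shifted) + F * dX G`, induction. Model: `S3Prd`. -/
def S5Prd : Prop := ∀ (r s : ℕ) (d e : ℤ) (F G : Fn5 (5 ^ r) (5 ^ s)), F ∈ Wd5 d → G ∈ Wd5 e →
  (fun x y => F x y * G x y) ∈ (Wd5 (d + e) : Submodule (ZMod 5) (Fn5 (5 ^ r) (5 ^ s)))

/-- SUBA (from LOW0, PRD). Substitutions. Let `t : ZMod (5^s) → ZMod (5^s)` respect all congruences modulo `5^i`. Then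
`F(x, y + 25 t(y)) - F(x, y)` has degree at most `d - 7` if `F` has degree at most `d`. Proof. With `Δ = dY` and `u = (t y).val`,
`F(x, y + 25 t) = (1 + Δ)^(25u) F = (1 + Δ^25)^u F = ∑_m (u choose m) (Δ^(25m) F)(x, y)` (characteristic 5), `m < 5^s`. For `m ≥ 1` let `5^i` be the smallest power of five bigger than `m`, so
`5^i ≤ 5m`; the function `y ↦ (u(y) choose m)` modulo 5 only depends on `u(y)` modulo `5^i` (Lucas / Vandermonde), so it has period `5^i` in `y`, so `Δ^(5^i)` kills it and its degree is at most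
`5^i - 1 ≤ 5m - 1`. By PRD the `m`-th term has degree at most `d - 25m + 5m - 1 ≤ d - 7`. The same in the variable `x`. Model: `S3SubA`. -/
def S5SubA : Prop := ∀ (r s : ℕ),
  (∀ (t : ZMod (5 ^ s) → ZMod (5 ^ s)),
    (∀ (i : ℕ) (y y' : ZMod (5 ^ s)), (5 : ZMod (5 ^ s)) ^ i ∣ y - y' → (5 : ZMod (5 ^ s)) ^ i ∣ t y - t y') →
    ∀ (d : ℤ) (F : Fn5 (5 ^ r) (5 ^ s)), F ∈ Wd5 d →
      (fun x y => F x (y + 25 * t y) - F x y) ∈ (Wd5 (d - 7) : Submodule (ZMod 5) (Fn5 (5 ^ r) (5 ^ s)))) ∧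
  (∀ (t : ZMod (5 ^ r) → ZMod (5 ^ r)),
    (∀ (i : ℕ) (x x' : ZMod (5 ^ r)), (5 : ZMod (5 ^ r)) ^ i ∣ x - x' → (5 : ZMod (5 ^ r)) ^ i ∣ t x - t x') →
    ∀ (d : ℤ) (F : Fn5 (5 ^ r) (5 ^ s)), F ∈ Wd5 d →
      (fun x y => F (x + 25 * t x) y - F x y) ∈ (Wd5 (d - 7) : Submodule (ZMod 5) (Fn5 (5 ^ r) (5 ^ s))))

/-- SUBB (from LOW0, PRD). Substitutions `F(x, y + 5 u y^e) - F(x,y)`, `e = 1, 2`, have degree at most `d - (5 - e)`. Proof: as in SUBA, `F(x, y + 5 u y^e) = ∑_m (ũ ỹ^e choose m) (Δ^(5m) F)(x,y)`, `ũ`, `ỹ` representatives in `ℕ`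
(`(1+Δ)^(5 ũ ỹ^e) = (1 + Δ⁵)^(ũ ỹ^e)`); the function `y ↦ (ũ ỹ^e choose m)` modulo 5, `m < 5^s`, is well defined on `ZMod (5^s)` (Lucas) and has degree at most `e m`, because `n ↦ (ũ n^e choose m)` on `ℕ` is a polynomial of
degree at most `e m`, so its differences of order `e m + 1` vanish. So the `m`-th term, `m ≥ 1`, has degree at most `d - 5m + em ≤ d - (5 - e)`. The same in `x`. Model: `S3SubB`. -/
def S5SubB : Prop := ∀ (r s e : ℕ), (e = 1 ∨ e = 2) →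
  (∀ (u : ZMod (5 ^ s)) (d : ℤ) (F : Fn5 (5 ^ r) (5 ^ s)), F ∈ Wd5 d →
      (fun x y => F x (y + 5 * u * y ^ e) - F x y) ∈ (Wd5 (d - (5 - e)) : Submodule (ZMod 5) (Fn5 (5 ^ r) (5 ^ s)))) ∧
  (∀ (u : ZMod (5 ^ r)) (d : ℤ) (F : Fn5 (5 ^ r) (5 ^ s)), F ∈ Wd5 d →
      (fun x y => F (x + 5 * u * x ^ e) y - F x y) ∈ (Wd5 (d - (5 - e)) : Submodule (ZMod 5) (Fn5 (5 ^ r) (5 ^ s))))

/-- NFA (from LOW0, SUBA, SUBB). Elementary operators. (1) `oW w` preserves degrees: for a natural number `c`, `dX (F(c x, y)) = ((((1 + dX)^c - 1) F)(c x, y)`, and `(1 + dX)^c - 1` is `dX` times something; replace `om`, `1/om` by natural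
representatives; so `dX^i dY^j (oW w F)` is the value of `((1+dX)^c - 1)^i ((1+dY)^c' - 1)^j F` at the scaled point. (2) For `w = 2` (`c ≡ c' ≡ -1`): if `i + j = d` then `((1+dX)^c - 1)^i ((1+dY)^c' - 1)^j F = (-1)^d dX^i dY^j F`, a
constant function (`F` of degree at most `d`; `(1+dX)^c - 1 = c dX + ...`), so `oW 2 F - (-1)^d F` has degree at most `d - 1`. (3) `oD`: `6x = x + 5x`, `y/6 = y + 5 (-1/6) y`: SUBB twice, lowers by `4`. (4) `oA`: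
`F(x + 1, y/(1 + 5y))`. Let `φ(y) = y - 5y²`, a permutation of `ZMod (5^s)`; `y/(1 + 5y) = φ(y) + 25 y³/(1 + 5y) = v + 25 t(v)` for `v = φ(y)`, `t(v) = y³/(1 + 5y)`, `y = φ⁻¹(v)`, and `t` respects congruences
(`φ(y) - φ(y') = (y - y')(1 - 5(y + y'))`). So `F(x, y/(1+5y)) = F(x, φ(y)) + K(x, φ(y))` with `K` of degree at most `d - 7` (SUBA), and composition with `φ` changes by degree at most `-3` (SUBB, `e = 2`). So `oA - 1 - dX` lowers by `3`;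
`oB` in the same way. -/
def S5Nfa : Prop := ∀ (r s : ℕ),
  (∀ w : Fin 4, Lw (oW w : Module.End (ZMod 5) (Fn5 (5 ^ r) (5 ^ s))) 0) ∧
  (∀ (d : ℤ) (F : Fn5 (5 ^ r) (5 ^ s)), F ∈ Wd5 d → Even d → oW 2 F - F ∈ Wd5 (d - 1)) ∧
  (∀ (d : ℤ) (F : Fn5 (5 ^ r) (5 ^ s)), F ∈ Wd5 d → Odd d → oW 2 F + F ∈ Wd5 (d - 1)) ∧
  Lw (oD - 1 : Module.End (ZMod 5) (Fn5 (5 ^ r) (5 ^ s))) 4 ∧
  Lw (oA - 1 - dX : Module.End (ZMod 5) (Fn5 (5 ^ r) (5 ^ s))) 3 ∧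
  Lw (oB - 1 - dY : Module.End (ZMod 5) (Fn5 (5 ^ r) (5 ^ s))) 3 ∧
  Lw (oA - 1 : Module.End (ZMod 5) (Fn5 (5 ^ r) (5 ^ s))) 1 ∧
  Lw (oB - 1 : Module.End (ZMod 5) (Fn5 (5 ^ r) (5 ^ s))) 1

/-- NF (from TRM, LOW0, NFA, SUBA). Normal form modulo operators which lower by `7`. Proof: with `C0 = om γ`, `D0 = om (5 γ β + 6^m)`, the product `oW w * oB^γ * oD^m * oA^β` is `op5 1 β C0 D0` (TRM:
`(1 0; 0 om)(1 0; 5γ 1)(1 0; 0 6^m)(1 β; 0 1) = (1 β; 5 C0 D0)`). Let `M = (a b; 5c d)`, `M0 = (1 β; 5C0 D0)`, `N = M adj(M0) = (n1 n2; 5 n3 n4)`, `n1 = a D0 - 5 b C0`, `n2 = b - a β`, `n3 = c D0 - d C0`, `n4 = d - 5 c β`: then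
`25 ∣ n2`, `25 ∣ n3`, `25 ∣ n1 - n4`, and `op5 N * op5 M0 = op5 M` (`N M0 = det(M0) M`, TRM; `det M0 = om 6^m`). `(x,y) N = (x + 25 t(x), y + 25 t'(y))`: `(n2 + n4 x)/(n1 + 5 n3 x) - x = (n2 + (n4 - n1) x - 5 n3 x²)/(n1 + 5 n3 x)`,
and `t`, `t'` respect congruences. So `op5 N - 1` lowers by `7` (SUBA in `x` and in `y`), and `op5 M0` preserves degrees (NFA). -/
def S5Nf : Prop := ∀ (r s : ℕ) (a b c d : ℤ) (w : Fin 4) (β γ m : ℕ), ¬ 5 ∣ a → ¬ 5 ∣ d →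
  25 ∣ b - β * a → 25 ∣ c - γ * om4 w * a → 25 ∣ d - (5 * γ * β + 6 ^ m) * om4 w * a →
    Lw (op5 a b c d - oW w * oB ^ γ * oD ^ m * oA ^ β :
      Module.End (ZMod 5) (Fn5 (5 ^ r) (5 ^ s))) 7

/-- `1/a` modulo `25`. -/
def aI (t : Tm) : ℤ := (t.2.1 ^ 19) % 25

/-- The exponent of `oA`: `b/a` modulo `25`. -/
def bE (t : Tm) : ℕ := ((t.2.2.1 * aI t) % 25).toNat

/-- `det/a²` modulo `25`. -/
def lE (t : Tm) : ℤ := ((t.2.1 * t.2.2.2.2 - 5 * t.2.2.1 * t.2.2.2.1) * aI t ^ 2) % 25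

/-- The index of the root of unity. -/
def wE (t : Tm) : Fin 4 :=
  if lE t % 5 = 1 then 0 else if lE t % 5 = 2 then 1 else if lE t % 5 = 4 then 2 else 3

/-- The inverses of the roots of unity modulo `25`. -/
def oi4 : Fin 4 → ℤ := ![1, 18, 24, 7]

/-- The exponent of `oD`. -/
def mE (t : Tm) : ℕ := (((lE t * oi4 (wE t)) % 25) / 5).toNat

/-- The exponent of `oB`. -/
def gE (t : Tm) : ℕ := ((t.2.2.2.1 * aI t * oi4 (wE t)) % 25).toNat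

/-- The coefficient of `oW w * (oB - 1)^i * (oD - 1)^k * (oA - 1)^j` in the expansion of a list. -/
def cS (L : List Tm) (w : Fin 4) (i k j : ℕ) : ℤ :=
  (L.map fun t : Tm => if wE t = w then
    (t.1 : ℤ) * (((gE t).choose i * (mE t).choose k * (bE t).choose j : ℕ) : ℤ) else 0).sum

/-- The monomials `(i, k, j)` of weight `i + 4k + j` at most `6`. -/
def M7 : Finset (ℕ × ℕ × ℕ) :=
  (Finset.range 7 ×ˢ Finset.range 2 ×ˢ Finset.range 7).filter fun t => t.1 + 4 * t.2.1 + t.2.2 ≤ 6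

/-- EXP (from LOW0, NFA, NF). Expansion of a list of operators modulo operators which lower by `7`. Proof: every term by NF (with `w = wE t`, `β = bE t`, `γ = gE t`, `m = mE t`: for `5 ∤ a d`, `a aI ≡ 1` modulo `25` (`a^20 ≡ 1`), `b ≡ β a`,
`lE ≡ det/a²`, `lE ≡ om4 w` modulo `5`, `om4 w * oi4 w ≡ 1` modulo `25`, so `lE * oi4 w ≡ 1 + 5m ≡ 6^m` modulo `25`, `m ≤ 4`; `c ≡ γ om a`, and `d a ≡ lE a² + 5 b c` gives `d ≡ (6^m + 5 γ β) om a`), `oB^γ = (1 + (oB - 1))^γ` etc., binomial theorem;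
the products with `i + 4k + j ≥ 7` lower by `7`, and `M7` contains all `(i, k, j)` of weight at most `6`. -/
def S5Exp : Prop := ∀ (r s : ℕ) (L : List Tm), (∀ t ∈ L, Gd t) →
  Lw ((opL L : Module.End (ZMod 5) (Fn5 (5 ^ r) (5 ^ s))) - ∑ w : Fin 4, ∑ t ∈ M7,
    ((cS L w t.1 t.2.1 t.2.2 : ℤ) : ZMod 5) • (oW w * (oB - 1) ^ t.1 * (oD - 1) ^ t.2.1 * (oA - 1) ^ t.2.2 :
      Module.End (ZMod 5) (Fn5 (5 ^ r) (5 ^ s)))) 7

/-- Multipliers of the relations for `T_2² + 1`: `MU i ρ`. -/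
def MU : Fin 2 → Fin 2 → List Tm
  | 0, 0 => [(2, 1, 1, -2, -1)]
  | 0, 1 => [(1, 1, 1, 2, 1), (2, 2, -1, 2, -2)]
  | 1, 0 => [(-2, 1, 2, 1, 1)]
  | 1, 1 => [(-1, 1, 0, 0, 1), (-2, 1, 0, -2, -1)]

/-- Multipliers of the relations for `T_3² - 2 T_2 T_3 - 2`: `MV i ρ`. -/
def MV : Fin 2 → Fin 2 → List Tm
  | 0, 0 => [(2, 3, 2, -3, -7), (2, 2, 1, 3, 8), (-2, 3, 5, 1, 8), (-1, 6, -1, 3, -4), (-2, 8, -1, -6, 3), (-2, 9, 6, 0, 1), (-1, 9, 0, 6, -1), (-1, 6, 2, 3, 4), (1, 2, 0, 2, 3), (1, 1, 6, 0, -1), (-1, 2, 0, 5, 3), (-2, 7, 3, -1, -2)]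
  | 0, 1 => [(-1, 1, -5, 0, -9), (-1, 2, -1, 0, -3), (-2, 2, 6, 0, -3), (-2, 4, -1, -1, 1), (2, 4, 6, -1, -6), (1, 3, -3, 1, -7), (2, 6, 0, 2, -1), (1, 1, -6, 0, -9), (-1, 4, 5, -2, -11), (-1, 2, 5, 0, 3), (-1, 4, 5, 2, 11)]
  | 1, 0 => [(-2, 4, 0, 1, 1), (2, 7, 3, 2, 3), (1, 2, -1, 0, 2), (-2, 9, -4, 0, 1), (-1, 8, -1, 4, -2), (1, 1, -1, 3, -6), (-1, 9, -5, 0, 1), (1, 2, 0, -6, 3), (1, 7, 1, -3, -2), (2, 1, 0, -5, 1), (-2, 7, 3, 3, 7)]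
  | 1, 1 => [(1, 3, 0, 2, -3), (1, 8, 1, -5, -3), (2, 9, 2, 3, 4), (-1, 4, 4, -2, -9), (-2, 1, 2, 1, 1), (2, 8, -5, -1, 3), (1, 1, -1, 1, -4), (-2, 1, 0, -4, -6), (-1, 6, -2, -6, 11), (-2, 2, 1, 1, 3), (-2, 1, -1, -3, 11)]

/-- `T_2² + 1` minus multiples of the relations. -/
def BU (i f : Fin 2) : List Tm :=
  UL i f ++ sclL (-1) (mulL (MU i 0) (relL 0 f)) ++ sclL (-1) (mulL (MU i 1) (relL 1 f))

/-- `T_3² - 2 T_2 T_3 - 2` minus multiples of the relations. -/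
def BV (i f : Fin 2) : List Tm :=
  VL i f ++ sclL (-1) (mulL (MV i 0) (relL 0 f)) ++ sclL (-1) (mulL (MV i 1) (relL 1 f))

/-- The first row of `T_2² - T_2 - 1` minus multiples of the relations. -/
def BO (f : Fin 2) : List Tm :=
  OL f ++ sclL (-1) (mulL [(1, 1, 4, 3, 1)] (relL 0 f)) ++ sclL (-1) (mulL [(4, 1, 0, 2, 1)] (relL 1 f))

/-- The coefficient of `dX^i dY^j` at the origin, for functions of degree at most 4. -/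
def nS (L : List Tm) (i j : ℕ) : ℤ :=
  (L.map fun t : Tm => (t.1 : ℤ) * (((((t.2.2.1 * t.2.1 ^ 3) % 5).toNat).choose i *
    (((t.2.2.2.1 * t.2.2.2.2 ^ 3) % 5).toNat).choose j : ℕ) : ℤ)).sum

/-- CERT. Finite computations. -/
def S5Cert : Prop :=
  (∀ i f : Fin 2, (∀ t ∈ T2L i f, Gd t) ∧ (∀ t ∈ T3L i f, Gd t) ∧ (∀ t ∈ relL i f, Gd t) ∧
    (∀ t ∈ MU i f, Gd t) ∧ (∀ t ∈ MV i f, Gd t)) ∧
  (∀ i : Fin 2, ∀ w : Fin 4, ∀ t ∈ M7, t.1 + 4 * t.2.1 + t.2.2 ≤ 2 → (5 : ℤ) ∣ cS (BU i 0) w t.1 t.2.1 t.2.2 -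
    (if i = 0 ∧ w = 2 ∧ t = (1, 0, 1) then 2 else 0)) ∧
  (∀ i : Fin 2, ∀ w : Fin 4, ∀ t ∈ M7, t.1 + 4 * t.2.1 + t.2.2 ≤ 1 → (5 : ℤ) ∣ cS (BU i 1) w t.1 t.2.1 t.2.2) ∧
  (∀ i : Fin 2, ∀ w : Fin 4, ∀ t ∈ M7, (5 : ℤ) ∣ cS (BV i 0) w t.1 t.2.1 t.2.2 -
    (if i = 0 ∧ w = 2 then (if t = (1, 0, 5) ∨ t = (5, 0, 1) then 3 else if t = (3, 0, 3) then 1 else 0) else 0)) ∧
  (∀ i : Fin 2, ∀ w : Fin 4, ∀ t ∈ M7, t.1 + 4 * t.2.1 + t.2.2 ≤ 5 → (5 : ℤ) ∣ cS (BV i 1) w t.1 t.2.1 t.2.2) ∧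
  (∀ i < 5, ∀ j < 5, i + j ≤ 4 → (5 : ℤ) ∣ nS (BO 0) i j -
    (if (i = 1 ∧ j = 3) ∨ (i = 2 ∧ j = 2) ∨ (i = 3 ∧ j = 1) then 4 else 0)) ∧
  (∀ i < 4, ∀ j < 4, i + j ≤ 3 → (5 : ℤ) ∣ nS (BO 1) i j)

/-- LW1 (from LOW0, NFA, NF). `op5 a b c d` with `5 ∤ a d` preserves degrees (NF; choose `w, β, γ, m` as in EXP). `τ2`, `τ3`, `τ3 τ2 = (4 -1; 5 -1)` up to sign have the normal forms `(w, γ, m, β) = (2, 12, 1, 12)`, `(2, 8, 2, 16)`, `(0, 19, 2, 6)`;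
so `op5 τ2 - oW 2`, `op5 τ3 - oW 2` lower by `1`, and `op5 4 (-1) 1 (-1) - 1 - dX + dY` lowers by `2` (`19 ≡ -1`, `6 ≡ 1` modulo `5`). -/
def S5Lw1 : Prop := ∀ (r s : ℕ),
  (∀ a b c d : ℤ, ¬ 5 ∣ a → ¬ 5 ∣ d → Lw (op5 a b c d : Module.End (ZMod 5) (Fn5 (5 ^ r) (5 ^ s))) 0) ∧
  Lw (op5 4 (-1) 1 (-1) - 1 - dX + dY : Module.End (ZMod 5) (Fn5 (5 ^ r) (5 ^ s))) 2 ∧
  (∀ (d : ℤ) (F : Fn5 (5 ^ r) (5 ^ s)), F ∈ Wd5 d → Even d →
    op5 2 (-1) 1 (-2) F - F ∈ Wd5 (d - 1) ∧ op5 3 (-2) 1 (-3) F - F ∈ Wd5 (d - 1)) ∧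
  (∀ (d : ℤ) (F : Fn5 (5 ^ r) (5 ^ s)), F ∈ Wd5 d → Odd d →
    op5 2 (-1) 1 (-2) F + F ∈ Wd5 (d - 1) ∧ op5 3 (-2) 1 (-3) F + F ∈ Wd5 (d - 1))

/-- LD (from TRM, LOW0, NFA, EXP, CERT). Leading forms, for `F0` of degree at most `d`, `d` even, and `F1` of degree at most `d - 1` satisfying the relations. `Rel5 F` says `∑_f opL (relL ρ f) (F f) = 0`; `opL (mulL L L') = opL L * opL L'` (TRM, all terms `Gd`),
`opL (sclL n L) = n • opL L`. So modulo the relations the rows are the lists `BU`, `BV`, and EXP with CERT gives the leading forms: the terms of weight at least `n` in EXP are lowered by `n` (`oW w (oB-1)^i (oD-1)^k (oA-1)^j` lowers by `i + 4k + j`); row `0`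
of `BU`: on `F0` `2 • oW 2 * (oB - 1) * (oA - 1)` plus weight at least `3`, on `F1` weight at least `2`; `oW 2 ≡ 1` on even degrees, `oB - 1 ≡ dY`, `oA - 1 ≡ dX` (NFA). Row `0` of `BV`: `oW 2 * (3 (oB-1)(oA-1)^5 + (oB-1)^3(oA-1)^3 + 3 (oB-1)^5(oA-1))`
plus weight at least `7` on `F0`, weight at least `6` on `F1`; `3 XY⁵ + X³Y³ + 3 X⁵Y = 3 XY (X² + Y²)²` modulo `5`. -/
def S5Ld : Prop := ∀ (r s : ℕ) (d : ℤ) (F : Fin 2 → Fn5 (5 ^ r) (5 ^ s)), Even d → Rel5 F → F 0 ∈ Wd5 d →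
  F 1 ∈ Wd5 (d - 1) →
  (∑ f : Fin 2, opL (UL 0 f) (F f)) - Qo (F 0) ∈ Wd5 (d - 3) ∧ (∑ f : Fin 2, opL (UL 1 f) (F f)) ∈ Wd5 (d - 3) ∧
  (∑ f : Fin 2, opL (VL 0 f) (F f)) - Lo (F 0) ∈ Wd5 (d - 7) ∧ (∑ f : Fin 2, opL (VL 1 f) (F f)) ∈ Wd5 (d - 7)

/-- OM (from TRM, LOW0, CERT). The value at the origin. For `F` of degree at most `4`: `dX^5 F = 0 = dY^5 F`, so `F` has periods `5` in both variables (`(1 + dX)^5 = 1 + dX^5`), so `(op5 a b c d F)(0,0) = F(b/a, c/d) = F(x, y)` with the natural numbers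
`x = (b a³) % 5`, `y = (c d³) % 5`, and `F(x, y) = ∑_{i + j ≤ 4} (x choose i)(y choose j) (dX^i dY^j F)(0,0)`. As in LD, `∑_f opL (OL f) (F f) = ∑_f opL (BO f) (F f)`; the value at the origin is by CERT the one of `Mo (F 0)` (`F1` of degree at most `3`). -/
def S5Om : Prop := ∀ (r s : ℕ) (F : Fin 2 → Fn5 (5 ^ r) (5 ^ s)), Rel5 F → F 0 ∈ Wd5 4 → F 1 ∈ Wd5 3 →
  (∑ f : Fin 2, opL (OL f) (F f)) 0 0 = Mo (F 0) 0 0

/-- The product of binomial coefficients `(x choose i)(y choose j)` modulo 5. -/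
def bb5 (i j : ℕ) {q q' : ℕ} : Fn5 q q' := fun x y => ((x.val.choose i * y.val.choose j : ℕ) : ZMod 5)

/-- BB. Binomial basis: for `i < 5^r`, `j < 5^s`: `bb5 i j ∈ Wd5 (i+j)`, `dX (bb5 (i+1) j) = bb5 i j` (`i + 1 < 5^r`),
`dX (bb5 0 j) = 0`, the same for `dY`; and the Newton expansion. (Pascal; wrap around `x = 5^r - 1`:
`(5^r choose i) = 0` modulo 5 for `0 < i < 5^r`.) Model: `S3Bb`. -/
def S5Bb : Prop := ∀ (r s : ℕ),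
  (∀ i j : ℕ, i < 5 ^ r → j < 5 ^ s →
    (bb5 i j : Fn5 (5 ^ r) (5 ^ s)) ∈ Wd5 ((i : ℤ) + j)) ∧
  (∀ i j : ℕ, i + 1 < 5 ^ r → j < 5 ^ s → dX (bb5 (i + 1) j : Fn5 (5 ^ r) (5 ^ s)) = bb5 i j) ∧
  (∀ i j : ℕ, i < 5 ^ r → j + 1 < 5 ^ s → dY (bb5 i (j + 1) : Fn5 (5 ^ r) (5 ^ s)) = bb5 i j) ∧
  (∀ j : ℕ, j < 5 ^ s → dX (bb5 0 j : Fn5 (5 ^ r) (5 ^ s)) = 0) ∧
  (∀ i : ℕ, i < 5 ^ r → dY (bb5 i 0 : Fn5 (5 ^ r) (5 ^ s)) = 0) ∧
  (∀ F : Fn5 (5 ^ r) (5 ^ s), F = ∑ i ∈ Finset.range (5 ^ r), ∑ j ∈ Finset.range (5 ^ s),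
    (((dX ^ i * dY ^ j : Module.End (ZMod 5) (Fn5 (5 ^ r) (5 ^ s))) F) 0 0) • bb5 i j)

/-- SUR (from TRM, LOW0, NFA, LW1, BB). Solving the inhomogeneous relation below the top degree. Proof by induction (downwards until `Wd5 (-1) = 0`): it is enough to solve up to an error in `Wd5 (e - 1)`. `e` odd: `f = b = 0`, `a = -E/2`:
`-(a - τ2 a) ≡ -2a = E`. `e` even: every `E ∈ Wd5 e` with `e < 5^r + 5^s - 2` is `dX P + dY Q` with `P, Q ∈ Wd5 (e+1)` (by BB `E` is a combination of `bb5 i j`, `i + j ≤ e`, and `bb5 i j = dX (bb5 (i+1) j)` or `dY (bb5 i (j+1))`); take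
`f = -(P + Q)`, `a = -Q`, `b = Q`: `f - T f ≡ dX (P + Q)` (`oA = op5 1 1 0 1`), `-(a - τ2 a) - (b - τ3 b) = (τ3 - τ2) Q = -τ3 (τ3τ2 - 1) Q ≡ -τ3 (dX - dY) Q ≡ (dY - dX) Q` (`op5 τ3 * op5 4 (-1) 1 (-1) = op5 τ2` by TRM; `τ3 ≡ 1` on the even degree `e`);
the sum is `dX P + dY Q`. -/
def S5Sur : Prop := ∀ (r s : ℕ) (e : ℤ) (E : Fn5 (5 ^ r) (5 ^ s)), e < 5 ^ r + 5 ^ s - 2 → E ∈ Wd5 e →
  ∃ f a b : Fn5 (5 ^ r) (5 ^ s), f ∈ Wd5 (e + 1) ∧ a ∈ Wd5 (e + 1) ∧ b ∈ Wd5 (e + 1) ∧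
    f - op5 1 1 0 1 f - (a - op5 2 (-1) 1 (-2) a) - (b - op5 3 (-2) 1 (-3) b) = E

/-- LED (from TRM, LOW0, NFA, LW1, BB, SUR). Solutions of the relations with given leading form, `d = al + be` even. If `f - T f - (a - τ2 a) - (b - τ3 b) = 0` then `F0 = f`, `F1 = a - τ2 a` satisfy `Rel5` (`τ2² = -1`, `τ3² = -1` act trivially:
`(1 + τ2)(1 - τ2) a = 0`, and `k = F0 - T F0 - F1 = b - τ3 b`). Start with `f⁰ = bb5 al be`, `a⁰ = -(1/2) dX f⁰` (of odd degree `d - 1`): `f⁰ - T f⁰ ≡ -dX f⁰`, `a⁰ - τ2 a⁰ ≡ 2 a⁰`: the error has degree at most `d - 2 < 5^r + 5^s - 2` and is corrected by SUR with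
functions of degree at most `d - 1`. -/
def S5Led : Prop := ∀ (r s al be : ℕ), al < 5 ^ r → be < 5 ^ s → Even (al + be) →
  ∃ F : Fin 2 → Fn5 (5 ^ r) (5 ^ s), Rel5 F ∧ F 0 - bb5 al be ∈ Wd5 ((al : ℤ) + be - 1) ∧
    F 1 ∈ Wd5 ((al : ℤ) + be - 1)

/-- ITR (from REL, HKB, HK2, HK3, LOW0, LD, OM). Iteration. For a symbol `G` modulo 5 of level `(r, s+1)` with `F0(G) ∈ Wd5 d`, `F1(G) ∈ Wd5 (d-1)`, `d` even, and `m = 5^r`. Proof: `T_l` preserves symbols (HKB), so `Uo m G`, `Vo m G` are symbols (`SymP.add` etc.), with the functions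
`∑_f opL (UL i f) F_f(G)`, `∑_f opL (VL i f) F_f(G)` (HK2, HK3 twice; `opL (mmL ..)`), and LD applies with `d - 2`, `d - 6` (so `F0(Uo G) ≡ Qo F0(G)` modulo `Wd5 (d-3)`, `F0(Vo G) ≡ Lo F0(G)` modulo `Wd5 (d-7)`). The functions of `(Uo m)^i (Vo m)^j G` have degrees
`d' = d - 2i - 6j`, `d' - 1`, and `F0 ≡ Qo^i Lo^j F0(G)` modulo `Wd5 (d' - 1)`. `ev5 m G c i j` is the value at `(0,0)` of `F0` of `(Oo m)^c (Uo m)^i (Vo m)^j G` (the standard matrix of `(0,0)` is `1`); for `c = 1` use OM if `d' ≤ 4` (`Mo` kills `Wd5 3`). -/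
def S5Itr : Prop := ∀ (r s : ℕ) (G : ℤ → ℤ → ZMod 5) (d : ℕ), SymP 5 r (s + 1) G → Even d →
  (pf5 G 0 : Fn5 (5 ^ r) (5 ^ s)) ∈ Wd5 (d : ℤ) → (pf5 G 1 : Fn5 (5 ^ r) (5 ^ s)) ∈ Wd5 ((d : ℤ) - 1) →
  ∀ i j : ℕ,
  (d < 2 * i + 6 * j → ev5 (5 ^ r) G 0 i j = 0) ∧
  (2 * i + 6 * j = d → ev5 (5 ^ r) G 0 i j =
    ((Qo ^ i * Lo ^ j : Module.End (ZMod 5) (Fn5 (5 ^ r) (5 ^ s))) (pf5 G 0)) 0 0) ∧
  (d < 2 * i + 6 * j + 4 → ev5 (5 ^ r) G 1 i j = 0) ∧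
  (2 * i + 6 * j + 4 = d → ev5 (5 ^ r) G 1 i j =
    ((Mo * Qo ^ i * Lo ^ j : Module.End (ZMod 5) (Fn5 (5 ^ r) (5 ^ s))) (pf5 G 0)) 0 0)

/-- TRI (from LOW0, BB, LED, EX, ITR). Triangular system of symbols modulo 5. For `(c, i, j)`, `c ≤ 1`, put `al = i + 5j + 3c < 5^r`, `be = i + j + c < 5^s` (`al + be = 2i + 6j + 4c`), take LED and the symbol `G` of EX. By ITR `ev5 G c' i' j' = 0` if
`2i' + 6j' + 4c' > 2i + 6j + 4c`; in case of equality it is, up to a nonzero constant, `((dX dY)^(i'+j'+c') (dX² + dX dY + dY²)^c' (dX² + dY²)^(2j') bb5 al be)(0,0)`: the coefficient of `dX^al dY^be`, which is `0` if `i' + j' + c' > be`, and `1` for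
`(c', i', j') = (c, i, j)` (the term `dX^(2c + 4j)` of the last two factors). Terms of lower degree are killed. -/
def S5Tri : Prop := ∀ (r s c i j : ℕ), c ≤ 1 → i + 5 * j + 3 * c < 5 ^ r → i + j + c < 5 ^ s →
  ∃ G : ℤ → ℤ → ZMod 5, SymP 5 r (s + 1) G ∧ ev5 (5 ^ r) G c i j ≠ 0 ∧
    ∀ c' i' j' : ℕ, c' ≤ 1 → ev5 (5 ^ r) G c' i' j' ≠ 0 →
      (2 * i' + 6 * j' + 4 * c' < 2 * i + 6 * j + 4 * c ∨
        (2 * i' + 6 * j' + 4 * c' = 2 * i + 6 * j + 4 * c ∧ i' + j' + c' ≤ i + j + c))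

/-- LIFP (from TRM). Lifting solutions of the relations to integers. Let `f = F0`, `a = F1/2`, `b = k/2` modulo 5, `k = F0 - T F0 - F1`: by Rel5 `a - τ2 a = F1`, `b - τ3 b = k`, so `f - T f - (a - τ2 a) - (b - τ3 b) = 0`. Take any integral lifts of `f, a, b`; the defect `E` of this
equation is divisible by 5 and has total sum zero over the plane (`p ↦ pT` etc. are bijections, TRM); `E/5` has total sum zero, and every integral function with sum zero is the defect of some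
`(f, a, b)`, because modulo defects `δ_p ≡ δ_(pg)` for `g = T, τ2, τ3`, so also for `B⁻¹ = T⁻¹ τ3 τ2` (up to sign), and the plane is connected under `T` and `B`
(`(x,y) T^z = (x + z, y/(1 + 5zy))`, `(x, y) B^z = (x/(1 + 5zx), y + z)`: move to `(0, y')` and then to `(0,0)`). Subtract `5` times this solution; then `F0 = f`, `F1 = a - τ2 a` satisfy `Rel5` over `ℤ` (see LED) and reduce to the given functions. Model: `S3Lifp`. -/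
def S5Lifp : Prop := ∀ (r s : ℕ) (f : Fin 2 → Fn5 (5 ^ r) (5 ^ s)), Rel5 f →
  ∃ F : Fin 2 → ZMod (5 ^ r) → ZMod (5 ^ s) → ℤ, Rel5 F ∧
    ∀ i x y, ((F i x y : ℤ) : ZMod 5) = f i x y

/-- LIF (from REL, LIFP, EX, UNI). Lifting symbols: every symbol `g` modulo 5 lifts to an integral symbol `G` with the same
`ev5` modulo 5. Proof: REL, LIFP, EX over `ℤ`; the reduction of `G` is a symbol with the same two functions as
`g`, so by UNI it equals `g` up to a constant; `ev5` commutes with reduction. -/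
def S5Lif : Prop := ∀ (r s : ℕ) (g : ℤ → ℤ → ZMod 5), SymP 5 r (s + 1) g →
  ∃ G : ℤ → ℤ → ℤ, SymP 5 r (s + 1) G ∧
    ∀ c i j : ℕ, ((ev5 (5 ^ r) G c i j : ℤ) : ZMod 5) = ev5 (5 ^ r) g c i j

/-- UNB. Back to `Γ₀(5^n)` and to complex values: if `G` is an integral symbol of level `(r, s)` then
`G0(p,q) = G(5^r p, q)` (as complex numbers) is a symbol of level `(0, r+s)` with `ev5 1 G0 = ev5 (5^r) G` (`Tl l 1 G0 (p,q) = Tl l (5^r) G (5^r p, q)`). -/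
def S5Unb : Prop := ∀ (r s : ℕ) (G : ℤ → ℤ → ℤ), SymP 5 r s G →
  SymP 5 0 (r + s) (fun p q => ((G (5 ^ r * p) q : ℤ) : ℂ)) ∧
    ∀ c i j : ℕ, ev5 1 (fun p q => ((G (5 ^ r * p) q : ℤ) : ℂ)) c i j = ((ev5 (5 ^ r) G c i j : ℤ) : ℂ)

/-- CNT. Counting the index sets. `DD5 (2k) = t²`, `DD5 (2k+1) = 5t² + 2t` with `t = 5^(k-1)` (`k ≥ 1`; induction, `DD5 2 = 1`, `DD5 3 = 7`). First set: the first condition follows from the second; `c = 0`: `t(t+1)/2`, `c = 1`: `t(t-1)/2`. Second set: the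
second condition follows from the first; `c = 0`: `∑_{j<t} (5t - 5j) = 5t(t+1)/2`, `c = 1`: `∑_{j<t} (5t - 3 - 5j) = 5t(t+1)/2 - 3t`. -/
def S5Cnt : Prop :=
  (∀ k : ℕ, 2 ≤ k → ((Finset.range 2 ×ˢ Finset.range (5 ^ k) ×ˢ Finset.range (5 ^ k)).filter
    fun t : ℕ × ℕ × ℕ => t.2.1 + 5 * t.2.2 + 3 * t.1 < 5 ^ k ∧ t.2.1 + t.2.2 + t.1 < 5 ^ (k - 1)).card = DD5 (2 * k)) ∧
  (∀ k : ℕ, 1 ≤ k → ((Finset.range 2 ×ˢ Finset.range (5 ^ k) ×ˢ Finset.range (5 ^ k)).filter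
    fun t : ℕ × ℕ × ℕ => t.2.1 + 5 * t.2.2 + 3 * t.1 < 5 ^ k ∧ t.2.1 + t.2.2 + t.1 < 5 ^ k).card = DD5 (2 * k + 1))

/-- LB from TRI, LIF, UNB, CNT. For `n = 2k` use `(r,s) = (k,k-1)`, for `n = 2k+1` use
`(r,s) = (k,k)`: level `(r, s+1)`. The matrix `M (κ, (c,i,j)) = ev5 G_κ c i j` (`κ`, `(c,i,j)` in the index set of CNT) is integral, and modulo 5 its rows are
linearly independent: in a relation `∑ x_κ M(κ,·) = 0` take `κ0` maximal with `x_{κ0} ≠ 0` for the order (`2i + 6j + 4c`, then `i + j + c`), which determines `(c,i,j)` (`i + 3j + 2c = D/2`, `2j + c = D/2 - (i + j + c)`); the column `κ0` gives `x_{κ0} = 0`. So its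
determinant is prime to `5`, nonzero in `ℂ`. If a combination `H` of the `G_κ` (complex, level `(0, n)`) is killed by all words (`evLP 5 H = 0`, that is `evw 1 ls H = 0` for `Ok 5 ls`) then `ev5 1 H c i j = 0`: the set of all `K` with `evw 1 ls K = 0` for all
words is stable under `Tl 2 1`, `Tl 3 1` (`Tw 1 ls (Tl l 1 K) = Tw 1 (ls ++ [l]) K`), sums and integer multiples. So the vectors `evLP 5 (G_κ)` are independent. Model: `S3LBof`. -/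
def S5LBof : Prop := S5Tri → S5Lif → S5Unb → S5Cnt → S5LB

end Pool.Agent.Helper14.W5
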