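import Pool.Agent.Helper28.WK.StB
import Pool.Agent.Helper14.W5.StD

/-!
# Project W5: Theorem A for the prime five (`TAp 5`), for all weights

Models: the statements of `Pool/Agent/Helper78/WK3/StA.lean` (prime three) and the modules `Pool/Agent/*/WK3/M_*.lean`. Statements with a `P` are for any prime `p`. `u = act p 0 0 1`,
`W = act 0 (-1) (p^m) 0`, `* = act (-1) 0 0 1`. Composition rule: `act_act`. All values are at words (`evw`) instead of `ev3`.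
-/

set_option autoImplicit false

namespace Pool.Agent.Helper14.W5

open Pool.Agent.Helper14.CV (Homog EqC act Tl StFar StFex)
open Pool.Agent.Helper28.WK (SymP Tw evw Ok UIp TAp)

/-- Killed by all words. -/
def Wz {R : Type} [AddCommGroup R] (p : ℕ) (m : ℤ) (G : ℤ → ℤ → R) : Prop :=
  ∀ ls : List ℕ, Ok p ls → evw m ls G = 0

/-- WV. A function killed by all words has `ev5 = 0`. Proof: `Wz` is stable under `Tl 2 m`, `Tl 3 m` (`Tw m ls (Tl l m G) = Tw m (ls ++ [l]) G`), sums and integer multiples, so under `Uo`, `Vo`, `Oo` and their iterates; take the empty word.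
Model: `Wd_ev3` in `Helper78/WK3/M_Ta3.lean`. -/
def S5Wv : Prop := ∀ (R : Type) (_ : AddCommGroup R) (m : ℤ) (G : ℤ → ℤ → R), Wz 5 m G →
  ∀ c i j : ℕ, ev5 m G c i j = 0

/-- The content of BAS5. -/
def Bas5 : Prop := ∀ m : ℕ, 3 ≤ m →
  ∃ (G : Fin (DD5 m) → ℤ → ℤ → ℤ) (t : Fin (DD5 m) → ℕ × ℕ × ℕ), (∀ k, SymP 5 0 m (G k)) ∧
    ¬ (5 : ℤ) ∣ Matrix.det (Matrix.of fun k l => ev5 1 (G k) (t l).1 (t l).2.1 (t l).2.2)

/-- BAS5. An integral family with determinant prime to five. Proof: the proof of `S5LBof` (module LBof) before the passage to complex numbers: `m = 2k`: `(r,s) = (k,k-1)` (`k ≥ 2`), `m = 2k+1`: `(r,s) = (k,k)` (`k ≥ 1`); TRI, LIF; transport of an integral symbol `G` of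
level `(r, s+1)` to level `(0, r+s+1)` by `G0 (p,q) = G (5^r p, q)` with `ev5 1 G0 = ev5 (5^r) G` (`Tl l 1 G0 (p,q) = Tl l (5^r) G (5^r p, q)`); the matrix modulo 5 is triangular for the order (`2i+6j+4c`, then `i+j+c`). Model: `StBas3`
(`Pool/Agent/*/WK3/M_Bas3.lean`). -/
def S5BasOf : Prop := S5Tri → S5Lif → S5Cnt → Bas5

/-- The content of DIM5. -/
def Dim5 : Prop := ∀ (m : ℕ) (G : Fin (DD5 m) → (ℤ → ℤ → ℂ)), 3 ≤ m →
  (∀ k, SymP 5 0 m (G k)) → LinearIndependent ℂ (fun k => evLP 5 (G k)) →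
  ∀ H : ℤ → ℤ → ℂ, SymP 5 0 m H → evLP 5 H ∈ Submodule.span ℂ (Set.range fun k => evLP 5 (G k))

/-- DIM5. `finrank ((XSP 5 m).map (evLP 5)) ≤ DD5 m` and finiteness: see the proof of `S5CoreOf` (`Pool/Agent/Helper71/W5/M_CoreOf.lean`); the span of the family is contained in it and has `finrank` `DD5 m`. Model: `Pool/Agent/Helper2/WK3/M_Dim3.lean`. -/
def S5DimOf : Prop := SPB3a → S5B3b → S5UB → Dim5

/-- The content of NEX. -/
def NexP (p : ℕ) : Prop := ∀ (m : ℕ) (G0 G1 : ℤ → ℤ → ℂ), 3 ≤ m →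
  SymP p 0 (m - 1) G0 → NewSymP p m G1 → (∀ ls : List ℕ, Ok p ls → evw 1 ls G0 + evw 1 ls G1 = 0) → EqC G1 0

/-- NEX5. The old and the new part of the values are independent. Proof: with `V = (XSP 5 m).map (evLP 5)`, `W = (NSP 5 m).map (evLP 5)` of the module CoreOf; `evLP 5 G1 = -evLP 5 G0` is in
`V (m-1) ⊓ W m`. If `¬ EqC G1 0`: either `evLP 5 G1 = 0`, then `finrank (W m) + 1 ≤ dd5 m`; or `V (m-1) ⊓ W m ≠ ⊥`, then `finrank (V (m-1) ⊔ W m) + 1 ≤ finrank (V (m-1)) + finrank (W m)`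
(`Submodule.finrank_sup_add_finrank_inf_eq`). In both cases `finrank (V m) < DD5 m`, against LB, as in `S5CoreOf`. Model: `Pool/Agent/Helper2/WK3/M_Nex3.lean`. -/
def S5NexOf : Prop := SPB3a → S5B3b → S5UB → S5LB → NexP 5

/-- The content of BSE. -/
def BseP (p : ℕ) : Prop := ∀ K : ℤ → ℤ → ℂ, SymP p 0 2 K → EqC (act 0 (-1) ((p : ℤ) ^ 2) 0 K) (-K) →
  EqC (act (-1) 0 0 1 K) K → K 1 0 = K 0 1 → EqC K 0

/-- BSE5. Level 25: the argument inside `S5B3b` (`Pool/Agent/Helper53/W5/M_B3b.lean`): `K(1,0) = K(0,1)`, `K∘W ≈ -K`, `K∘* ≈ K` imply that `K` is constant. -/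
def S5BseOf : Prop := StFar → BseP 5

/-- The content of EVU. -/
def EvUP (p : ℕ) : Prop := ∀ (R : Type) (_ : AddCommGroup R) (n : ℕ) (G : ℤ → ℤ → R),
  SymP p 0 n G → SymP p 0 (n + 1) (act p 0 0 1 G) ∧
    ∀ ls : List ℕ, Ok p ls → evw 1 ls (act p 0 0 1 G) = evw 1 ls G

/-- EVU. `u` maps symbols of level `p^n` to symbols of level `p^(n+1)`, commutes with `T_l` and does not
change the values. Proof: (i) `u (a b; c d) = (a pb; c/p d) u`. (ii) `G (x + t y, y) = G (x, y)` for integers `t`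
(the constant of `EqC` is `0`: evaluate at `(1, 0)`), so in
`Tl l 1 (u G) (x,y) = G (p l x, y) + ∑_j G (p x + p j y, l y)` the term with `p j = j' + l t` is
`G (p x + j' y + t (l y), l y) = G (p x + j' y, l y)`, and `j ↦ p j` modulo `l` is a permutation (`l ≠ p`): so
`Tl l 1 (u G) = u (Tl l 1 G)` (away from the origin, `y = 0` directly). (iii) Induction on the word, using HKS, and
`H(p,0) = H(1,0)` by `Homog`. Model: `Pool/Agent/Helper90/WK3/M_EvU3.lean`. -/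
def SPEvU : Prop := SPHk → SPHkS → ∀ p : ℕ, p.Prime → EvUP p

/-- The content of KS. -/
def KsP (p : ℕ) : Prop := ∀ (m : ℕ) (G : ℤ → ℤ → ℂ), 3 ≤ m → SymP p 0 m G →
  EqC (act 0 (-1) ((p : ℤ) ^ m) 0 G) (-G) → EqC (act (-1) 0 0 1 G) G → Wz p 1 G →
  ∃ G' ψ : ℤ → ℤ → ℂ, SymP p 0 (m - 1) G' ∧ SymP p 0 (m - 1) ψ ∧
    EqC (act 0 (-1) ((p : ℤ) ^ (m - 1)) 0 G') (-G') ∧ EqC (act (-1) 0 0 1 G') G' ∧
    Wz p 1 G' ∧ EqC G (G' + (act p 0 0 1 ψ - ψ))

/-- KS. Step of the induction for K. Proof. `tS p`, `sS p m`, `W = act 0 (-1) (p^m) 0`,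
`W' = act 0 (-1) (p^(m-1)) 0`, `* = act (-1) 0 0 1`; relations SPCom up to constants. Put
`A = tS G / p`, `B = G - A`, `C = sS B / p`, `E = B - C` (as in `SPB3a`, `Pool/Agent/Helper37/W5/M_PB3a.lean`): `G = A + C + E`; `tS E ≈ 0`, `sS E ≈ 0`. `W` exchanges `tS` and `sS`, which commute, so `W E ≈ -E` (from
`W G ≈ -G`), and `* E ≈ E`, `* A ≈ A`, `* C ≈ C`: `E` is a `NewSymP`. By SPAvg
`C` and `W A` have level `p^(m-1)`; `evw A = -evw (W A)` (SPEv), so `0 = evw G = evw (C - W A) + evw E` and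
`E ≈ 0` by NEX. Put `ω = (C - W A)/2` of level `p^(m-1)`, `* ω ≈ ω`: from `G ≈ A + C`, `G ≈ -W G`, `W W ≈ 1`:
`ω - W ω ≈ ((A + C) - W (A + C))/2 ≈ G`. `W ω = u (W' ω)` exactly (`act_act`). Take `G' = ω - W' ω`,
`ψ = -W' ω`: `G ≈ ω - u W' ω = G' + (u ψ - ψ)`. `W'` preserves level `p^(m-1)` (SPAvg with `m - 1 ≥ 2`) and
`W' W' ω ≈ ω` (`W' W' = -p^(m-1)`, `Homog`), so `W' G' ≈ -G'`; `* G' ≈ G'` (`* W' = -W' *`); `evw G' = evw G - evw (u ψ) + evw ψ = 0`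
by EVU. Model: `Pool/Agent/Helper76/WK3/M_Ks3.lean`. -/
def SPKs : Prop := SPAvg → SPCom → SPEv → ∀ p : ℕ, p.Prime → NexP p → EvUP p → KsP p

/-- The content of K. -/
def KkP (p : ℕ) : Prop := ∀ (m : ℕ) (G : ℤ → ℤ → ℂ), 3 ≤ m → SymP p 0 m G →
  EqC (act 0 (-1) ((p : ℤ) ^ m) 0 G) (-G) → EqC (act (-1) 0 0 1 G) G → Wz p 1 G →
  ∃ ψ : ℤ → ℤ → ℂ, SymP p 0 (m - 1) ψ ∧ EqC (act p 0 0 1 ψ - ψ) G

/-- K. The kernel of the values is the image of `u - 1`. Proof: induction on `m` (KS). `m = 3`: `G'` has level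
`p²`, `evw 1 [] G' = G' 1 0 - G' 0 1 = 0`, BSE: `G' ≈ 0`. `m ≥ 4`: `G' ≈ u ψ' - ψ'` with `ψ'` of level
`p^(m-2)`, so of level `p^(m-1)`. Model: `Pool/Agent/Helper66/WK3/M_K3.lean`. -/
def SPKk : Prop := ∀ p : ℕ, p.Prime → KsP p → BseP p → KkP p

/-- LFM5. Lifting solutions of the relations from `ZMod (5^M)` to `ℤ`: the proof of `S5Lifp`
with `ZMod (5^M)` in place of `ZMod 5` (`2` is a unit). Model: `Pool/Agent/Helper78/WK3/M_Lfm3.lean`. -/
def S5Lfm : Prop := ∀ (r s M : ℕ) (f : Fin 2 → ZMod (5 ^ r) → ZMod (5 ^ s) → ZMod (5 ^ M)), Rel5 f →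
  ∃ F : Fin 2 → ZMod (5 ^ r) → ZMod (5 ^ s) → ℤ, Rel5 F ∧
    ∀ i x y, ((F i x y : ℤ) : ZMod (5 ^ M)) = f i x y

/-- The content of LFT. -/
def LftP (p : ℕ) : Prop := ∀ (m M : ℕ) (g : ℤ → ℤ → ZMod (p ^ M)), 2 ≤ m →
  SymP p 0 m g → ∃ G : ℤ → ℤ → ℤ, SymP p 0 m G ∧ EqC (fun x y => ((G x y : ℤ) : ZMod (p ^ M))) g

/-- LFT5. Lifting symbols of level `5^m` from `ZMod (5^M)` to `ℤ`. Proof: `m = r + 1`, `s = 0`. The
potential `g1 (p,q) = g (p, 5^r q)` is a symbol of level `(r, 1)`; REL, LFM5, EX over `ℤ`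
give an integral symbol `G1` of level `(r, 1)` whose reduction has the same plane functions as
`g1`, so it equals `g1` up to a constant (UNI over `ZMod (5^M)`; cf. module Lif).
Transport back: `G (p,q) = G1 (5^r p, q)`, a symbol of level `(0, r+1)`, and
`g1 (5^r p, q) = g (5^r p, 5^r q) = g (p, q)`. Model: `Pool/Agent/Helper32/WK3/M_Lft3.lean`. -/
def S5LftOf : Prop := S5Rel → S5Ex → S5Uni → S5Lfm → LftP 5

/-- The content of CRM. -/
def CrmP (p : ℕ) : Prop := ∀ (m M : ℕ) (g : ℤ → ℤ → ZMod (p ^ M)), 3 ≤ m → SymP p 0 m g → Wz p 1 g →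
  ∃ (d : ℤ) (G : ℤ → ℤ → ℤ), ¬ (p : ℤ) ∣ d ∧ SymP p 0 m G ∧ Wz p 1 G ∧
    EqC (fun x y => ((G x y : ℤ) : ZMod (p ^ M))) (d • g)

/-- CRM5. Cramer. Proof. Let `G~` be an integral lift of `g` (LFT5), `G_k`, `t_k` from BAS5,
`X = (ev5 1 G_k (t_l))`, `d = det X` prime to five. The complexifications of the `G_k` have independent
`evLP 5` (a combination `H` of them with `evLP 5 H = 0` satisfies `ev5 1 H = 0` by WV, and `d ≠ 0`), so by DIM5 `evLP 5 G~ = ∑_k y_k evLP 5 G_k` with complex `y_k`, so `ev5 1 G~ = ∑_k y_k ev5 1 G_k` (WV). With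
`e_l = ev5 1 G~ (t_l)` (integers divisible by `5^M`: `ev5 1 g = 0` by WV and `ev5` commutes with reduction)
`y X = e`, so `d y = e adj(X)`: `d y_k = 5^M z_k` with integers `z_k`. Put
`G = d G~ - 5^M ∑ z_k G_k`. Model: `Pool/Agent/Helper69/WK3/M_Crm3.lean`. -/
def S5CrmOf : Prop := S5Wv → Bas5 → Dim5 → LftP 5 → CrmP 5

/-- The content of INT. -/
def IntP (p : ℕ) : Prop := ∀ (m : ℕ) (ψ : ℤ → ℤ → ℂ) (G : ℤ → ℤ → ℤ), SymP p 0 m ψ →
  EqC (act p 0 0 1 ψ - ψ) (fun x y => ((G x y : ℤ) : ℂ)) →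
  ∃ ψ' : ℤ → ℤ → ℤ, SymP p 0 m ψ' ∧ EqC (act p 0 0 1 ψ' - ψ') G

/-- INT. Integrality. Proof: `ψ - ψ(1,0)` modulo `ℤ`, with values in the quotient group
`ℂ ⧸ AddSubgroup.zmultiples (1 : ℂ)` (or `ℂ ⧸ (Int.castAddHom ℂ).range`), is a `u`-invariant symbol, so it is
zero away from the origin by UIp (it vanishes at `(1,0)`); choose the integers `ψ' x y` with
`ψ x y - ψ 1 0 = ψ' x y` away from the origin (`ψ' 0 0 = 0`). The constants in `EqC` are integers: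
evaluate at `(1, 0)`. Model: `Pool/Agent/Helper37/WK3/M_Int3.lean`. -/
def SPInt : Prop := UIp → ∀ p : ℕ, p.Prime → IntP p

/-- TA. Proof (for `m ≥ 3`). `d`, `G1` from CRM. `G2 = G1 - W G1 + * (G1 - W G1)` (integral;
`W = act 0 (-1) (p^m) 0`, `* = act (-1) 0 0 1`). Its complexification is a symbol (SPAvg) with
`W G2 ≈ -G2`, `* G2 ≈ G2` (SPCom) and `evw G2 = 4 evw G1 = 0` (SPEv). By K and INT there is an integral
`ψ1` with `u ψ1 - ψ1 ≈ G2`. Modulo `p^M`: `G2 ≡ d (g - W g + * (g - W g)) ≈ 4 d g` up to constants.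
Multiply by an integer `d'` with `d d' ≡ 1` modulo `p^M`. Models: `Pool/Agent/Helper43/WK3/M_TA3.lean`, `Helper78/WK3/M_Ta3.lean`. -/
def SPTA : Prop := SPAvg → SPCom → SPEv → ∀ p : ℕ, p.Prime → CrmP p → KkP p → IntP p → TAp p

end Pool.Agent.Helper14.W5
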