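import Pool.Agent.Helper28.WK.DefsP
import Pool.Agent.Helper14.WK.Defs

/-!
# Project W5 (level `5^n`): definitions

`Homog`, `EqC`, `act`, `Tl` are those of `Helper14/CV/Defs.lean`; `SymP`, `Tw`, `evw`, `Ok` those of
`Helper28/WK/DefsP.lean`. Names with a `P` are for a general prime `p`, names with a `5` for `p = 5`.
-/

set_option autoImplicit false

namespace Pool.Agent.Helper14.W5

open Pool.Agent.Helper14.CV (Homog EqC act Tl StFar StFex)
open Pool.Agent.Helper28.WK (SymP Tw evw Ok)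

/-- New symbols of level `p^n` with `W = -1` and `* = +1`. -/
def NewSymP (p n : ℕ) (G : ℤ → ℤ → ℂ) : Prop :=
  SymP p 0 n G ∧ EqC (∑ i ∈ Finset.range p, act p i 0 p G) 0 ∧
    EqC (∑ i ∈ Finset.range p, act 1 0 (i * (p : ℤ) ^ (n - 1)) 1 G) 0 ∧
    EqC (act 0 (-1) ((p : ℤ) ^ n) 0 G) (-G) ∧ EqC (act (-1) 0 0 1 G) G

/-- The operator `T_2² + 1`. -/
def Uo {R : Type} [AddCommGroup R] (m : ℤ) (G : ℤ → ℤ → R) : ℤ → ℤ → R :=
  Tl 2 m (Tl 2 m G) + G

/-- The operator `T_3² - 2 T_2 T_3 - 2`. -/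
def Vo {R : Type} [AddCommGroup R] (m : ℤ) (G : ℤ → ℤ → R) : ℤ → ℤ → R :=
  Tl 3 m (Tl 3 m G) - (2 : ℤ) • Tl 2 m (Tl 3 m G) - (2 : ℤ) • G

/-- The operator `T_2² - T_2 - 1`, congruent to `(T_2 - 3)²` modulo `5`. -/
def Oo {R : Type} [AddCommGroup R] (m : ℤ) (G : ℤ → ℤ → R) : ℤ → ℤ → R :=
  Tl 2 m (Tl 2 m G) - Tl 2 m G - G

/-- The value of the symbol of `G` at `(T_2² - T_2 - 1)^c (T_2² + 1)^i (T_3² - 2 T_2 T_3 - 2)^j {0, ∞}`. -/
def ev5 {R : Type} [AddCommGroup R] (m : ℤ) (G : ℤ → ℤ → R) (c i j : ℕ) : R :=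
  ((Oo m)^[c] ((Uo m)^[i] ((Vo m)^[j] G))) 1 0 - ((Oo m)^[c] ((Uo m)^[i] ((Vo m)^[j] G))) 0 1

/-- The bound for the dimension of the new symbols of level `5^n` with `W = -1`, `* = +1`. -/
def dd5 (n : ℕ) : ℕ :=
  if n ≤ 2 then 0
  else if n % 2 = 1 then 4 * 25 ^ (n / 2 - 1) + 2 * 5 ^ (n / 2 - 1)
  else 20 * 25 ^ (n / 2 - 2) - 2 * 5 ^ (n / 2 - 2)

/-- `1 + ∑_{m ≤ n} dd5 m`. -/
def DD5 (n : ℕ) : ℕ := 1 + ∑ m ∈ Finset.range (n + 1), dd5 m

/-! ### Linear maps -/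

section

variable {R : Type} [AddCommGroup R]

theorem SymP.add {p r s : ℕ} {G H : ℤ → ℤ → R} (h : SymP p r s G) (h' : SymP p r s H) :
    SymP p r s (G + H) :=
  ⟨h.1.add h'.1, fun a b c d hd hb hc => (h.2 a b c d hd hb hc).add (h'.2 a b c d hd hb hc)⟩

theorem SymP.neg {p r s : ℕ} {G : ℤ → ℤ → R} (h : SymP p r s G) : SymP p r s (-G) :=
  ⟨h.1.neg, fun a b c d hd hb hc => (h.2 a b c d hd hb hc).neg⟩

theorem SymP.smul {S : Type} [Monoid S] [DistribMulAction S R] (x : S) {p r s : ℕ}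
    {G : ℤ → ℤ → R} (h : SymP p r s G) : SymP p r s (x • G) :=
  ⟨h.1.smul x, fun a b c d hd hb hc => (h.2 a b c d hd hb hc).smul x⟩

/-- Scalar multiples of elements of the group act trivially. -/
theorem SymP.mem {p r s : ℕ} {G : ℤ → ℤ → R} (h : SymP p r s G) (k a b c d : ℤ) (hk : k ≠ 0)
    (hd : a * d - b * c = 1) (hb : (p : ℤ) ^ r ∣ b) (hc : (p : ℤ) ^ s ∣ c) :
    EqC (act (k * a) (k * b) (k * c) (k * d) G) G :=
  (h.1.scale k hk (by rw [hd]; exact one_ne_zero)).trans (h.2 a b c d hd hb hc)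

/-- A symbol composed with a matrix which normalises the group is a symbol. -/
theorem SymP.act {p r s r' s' : ℕ} {G : ℤ → ℤ → R} (h : SymP p r s G) {x y z w : ℤ}
    (hdet : x * w - y * z ≠ 0)
    (hn : ∀ a b c d : ℤ, a * d - b * c = 1 → (p : ℤ) ^ r' ∣ b → (p : ℤ) ^ s' ∣ c →
      ∃ a' b' c' d' : ℤ, a' * d' - b' * c' = 1 ∧ (p : ℤ) ^ r ∣ b' ∧ (p : ℤ) ^ s ∣ c' ∧
        x * a + y * c = a' * x + b' * z ∧ x * b + y * d = a' * y + b' * w ∧
        z * a + w * c = c' * x + d' * z ∧ z * b + w * d = c' * y + d' * w) :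
    SymP p r' s' (act x y z w G) := by
  refine ⟨h.1.act hdet, fun a b c d hd hb hc => ?_⟩
  obtain ⟨a', b', c', d', hd', hb', hc', e1, e2, e3, e4⟩ := hn a b c d hd hb hc
  rw [Pool.Agent.Helper14.CV.act_act, e1, e2, e3, e4, ← Pool.Agent.Helper14.CV.act_act]
  exact (h.2 a' b' c' d' hd' hb' hc').act hdet

theorem Tw_add (m : ℤ) (ls : List ℕ) (G H : ℤ → ℤ → R) :
    Tw m ls (G + H) = Tw m ls G + Tw m ls H := by
  induction ls with
  | nil => rfl
  | cons l ls ih =>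
    show Tl l m (Tw m ls (G + H)) = Tl l m (Tw m ls G) + Tl l m (Tw m ls H)
    rw [ih, Pool.Agent.Helper14.CV.Tl_add]

theorem Tw_smul {S : Type} [Monoid S] [DistribMulAction S R] (s : S) (m : ℤ) (ls : List ℕ)
    (G : ℤ → ℤ → R) : Tw m ls (s • G) = s • Tw m ls G := by
  induction ls with
  | nil => rfl
  | cons l ls ih =>
    show Tl l m (Tw m ls (s • G)) = s • Tl l m (Tw m ls G)
    rw [ih, Pool.Agent.Helper14.CV.Tl_smul]

end

open Classical in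
/-- The values at all words in the `T_l`, `l ≠ p` prime, as a linear map. -/
noncomputable def evLP (p : ℕ) : (ℤ → ℤ → ℂ) →ₗ[ℂ] (List ℕ → ℂ) where
  toFun G ls := if Ok p ls then evw 1 ls G else 0
  map_add' G H := by
    funext ls
    simp only [Pi.add_apply]
    split_ifs
    · simp only [evw, Tw_add, Pi.add_apply]; abel
    · simp
  map_smul' s G := by
    funext ls
    simp only [Pi.smul_apply, RingHom.id_apply]
    split_ifs
    · simp only [evw, Tw_smul, Pi.smul_apply, smul_sub]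
    · simp

/-- Symbols of level `p^n` as a subspace. -/
def XSP (p n : ℕ) : Submodule ℂ (ℤ → ℤ → ℂ) where
  carrier := {G | SymP p 0 n G}
  add_mem' h h' := SymP.add h h'
  zero_mem' := ⟨fun _ _ _ _ _ => rfl, fun _ _ _ _ _ _ _ => Pool.Agent.Helper14.CV.EqC.refl _⟩
  smul_mem' s _ h := SymP.smul s h

private theorem sum_add_sum (p : ℕ) (F : ℕ → (ℤ → ℤ → ℂ) → (ℤ → ℤ → ℂ))
    (hF : ∀ i G H, F i (G + H) = F i G + F i H) (G H : ℤ → ℤ → ℂ)
    (h : EqC (∑ i ∈ Finset.range p, F i G) 0) (h' : EqC (∑ i ∈ Finset.range p, F i H) 0) :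
    EqC (∑ i ∈ Finset.range p, F i (G + H)) 0 := by
  have e : ∑ i ∈ Finset.range p, F i (G + H) =
      ∑ i ∈ Finset.range p, F i G + ∑ i ∈ Finset.range p, F i H := by
    rw [← Finset.sum_add_distrib]
    exact Finset.sum_congr rfl fun i _ => hF i G H
  rw [e]
  have := h.add h'
  rwa [add_zero] at this

theorem NewSymP.add {p n : ℕ} {G H : ℤ → ℤ → ℂ} (h : NewSymP p n G) (h' : NewSymP p n H) :
    NewSymP p n (G + H) := by
  obtain ⟨a1, a2, a3, a4, a5⟩ := h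
  obtain ⟨b1, b2, b3, b4, b5⟩ := h'
  refine ⟨SymP.add a1 b1, sum_add_sum p (fun i G => act p i 0 p G) (fun _ _ _ => rfl) G H a2 b2,
    sum_add_sum p (fun i G => act 1 0 (i * (p : ℤ) ^ (n - 1)) 1 G) (fun _ _ _ => rfl) G H a3 b3,
    ?_, a5.add b5⟩
  rw [neg_add]; exact a4.add b4

theorem NewSymP.smul {p n : ℕ} (s : ℂ) {G : ℤ → ℤ → ℂ} (h : NewSymP p n G) :
    NewSymP p n (s • G) := by
  obtain ⟨a1, a2, a3, a4, a5⟩ := h
  refine ⟨SymP.smul s a1, ?_, ?_, ?_, a5.smul s⟩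
  · have := a2.smul s
    rw [smul_zero, Finset.smul_sum] at this
    exact this
  · have := a3.smul s
    rw [smul_zero, Finset.smul_sum] at this
    exact this
  · rw [← smul_neg]; exact a4.smul s

/-- New symbols of level `p^n` (`W = -1`, `* = +1`) as a subspace. -/
def NSP (p n : ℕ) : Submodule ℂ (ℤ → ℤ → ℂ) where
  carrier := {G | NewSymP p n G}
  add_mem' h h' := NewSymP.add h h'
  zero_mem' := by
    refine ⟨⟨fun _ _ _ _ _ => rfl, fun _ _ _ _ _ _ _ => Pool.Agent.Helper14.CV.EqC.refl _⟩,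
      ?_, ?_, ?_, Pool.Agent.Helper14.CV.EqC.refl _⟩
    · exact ⟨0, fun p q _ => by simp [act]⟩
    · exact ⟨0, fun p q _ => by simp [act]⟩
    · exact ⟨0, fun p q _ => by simp [act]⟩
  smul_mem' s _ h := NewSymP.smul s h

end Pool.Agent.Helper14.W5
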