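import Pool.Agent.Helper14.W5.StD

/-!
# Project W5, module CERT: finite computations for the leading forms of `T_2² + 1`, `T_3² - 2 T_2 T_3 - 2`
-/

set_option autoImplicit false
set_option maxRecDepth 100000

namespace Pool.Agent.Helper14.W5

theorem hCert : S5Cert := by
  refine ⟨?_, ?_, ?_, ?_, ?_, ?_, ?_⟩
  · decide +kernel
  · decide +kernel
  · decide +kernel
  · decide +kernel
  · decide +kernel
  · decide +kernel
  · decide +kernel

end Pool.Agent.Helper14.W5
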