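import Pool.Agent.Helper14.W5.StB

/-!
# Project W5 (level `5^n`): plane functions and the upper bound for new symbols

`μ = 0`: the plane is `Γ \ Γ₀(5)`, `μ = 1`: `Γ \ {(a b; c d) | 5 ∣ b, 5 ∣ c}`. Models for PLA, PLU, EDG, BAL: the modules of W3 with the same names
(`Pool/Agent/*/W3/M_PlA.lean`, ..., statements in `Helper78/W3/StC.lean`). Upper bound: for even exponents the extended group (with `S`, `*`) is generated by the reflections in the sides of a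
hexagon with cusps `∞, 1, 2` and three right angles, for odd exponents (`W`, `*`) by those of a quadrilateral with the cusp `∞` and three right angles.
-/

set_option autoImplicit false

namespace Pool.Agent.Helper14.W5

open Pool.Agent.Helper14.CV (Homog EqC act Tl StFar StFex)
open Pool.Agent.Helper28.WK (SymP Tw evw Ok)

/-- The matrix `(a, 5^μ b; 5 c, d)` has determinant one and plane coordinates `(x, y)`, that is
`b = x a` modulo `q` and `c = y d` modulo `q'`. -/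
def Pl5 (μ : ℕ) {q q' : ℕ} (a b c d : ℤ) (x : ZMod q) (y : ZMod q') : Prop :=
  a * d - 5 ^ (μ + 1) * b * c = 1 ∧ (b : ZMod q) = x * a ∧ (c : ZMod q') = y * d

/-- The entry `Y` of the standard matrix `(1, 5^μ X; 5 Y, 1 + 5^(μ+1) X Y)`, `X = x.val`, with
coordinates `(x, y)`. -/
noncomputable def rY5 (μ : ℕ) {q q' : ℕ} (x : ZMod q) (y : ZMod q') : ℤ :=
  ((y * (1 - 5 ^ (μ + 1) * ((x.val : ℕ) : ZMod q') * y)⁻¹).val : ℤ)

/-- The value of the symbol of `G` on the path from `g v` to `g u` (`u = (u1,u2)`, `v = (v1,v2)`),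
where `g` is the standard matrix with plane coordinates `(x, y)`. -/
noncomputable def edge5 {R : Type} [AddCommGroup R] (μ : ℕ) {q q' : ℕ} (u1 u2 v1 v2 : ℤ)
    (G : ℤ → ℤ → R) (x : ZMod q) (y : ZMod q') : R :=
  G (u1 + 5 ^ μ * (x.val : ℤ) * u2) (5 * rY5 μ x y * u1 + (1 + 5 ^ (μ + 1) * (x.val : ℤ) * rY5 μ x y) * u2)
  - G (v1 + 5 ^ μ * (x.val : ℤ) * v2) (5 * rY5 μ x y * v1 + (1 + 5 ^ (μ + 1) * (x.val : ℤ) * rY5 μ x y) * v2)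

/-- PLA. The standard matrix has the right coordinates. (`1 - 5^(μ+1) X y` is a unit of
`ZMod (5^s)`; `Y = y (1 - 5^(μ+1) X y)⁻¹` satisfies `Y = y (1 + 5^(μ+1) X Y)`.) -/
def S5PlA : Prop := ∀ (μ r s : ℕ) (x : ZMod (5 ^ r)) (y : ZMod (5 ^ s)),
  Pl5 μ 1 (x.val : ℤ) (rY5 μ x y) (1 + 5 ^ (μ + 1) * (x.val : ℤ) * rY5 μ x y) x y

/-- PLU. Two matrices with the same coordinates differ by an element
`(α β; γ δ)` with `5^(r+μ) ∣ β`, `5^(s+1) ∣ γ` on the left: `(α β; γ δ) = g' g⁻¹`,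
`β = 5^μ (a b' - a' b)`, `γ = 5 (c' d - c d')`. -/
def S5PlU : Prop := ∀ (μ r s : ℕ) (x : ZMod (5 ^ r)) (y : ZMod (5 ^ s)) (a b c d a' b' c' d' : ℤ),
  Pl5 μ a b c d x y → Pl5 μ a' b' c' d' x y → ∃ α β γ δ : ℤ, α * δ - β * γ = 1 ∧
    (5 : ℤ) ^ (r + μ) ∣ β ∧ (5 : ℤ) ^ (s + 1) ∣ γ ∧
    a' = α * a + β * (5 * c) ∧ 5 ^ μ * b' = α * (5 ^ μ * b) + β * d ∧
    5 * c' = γ * a + δ * (5 * c) ∧ d' = γ * (5 ^ μ * b) + δ * d

/-- EDG (from PLA, PLU). For a symbol `G` the value on the path from `g v` to `g u` depends only on the plane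
coordinates of `g`: it is `edge5`. -/
def S5Edg : Prop := ∀ (R : Type) (_ : AddCommGroup R) (μ r s : ℕ) (G : ℤ → ℤ → R),
  SymP 5 (r + μ) (s + 1) G → ∀ (u1 u2 v1 v2 : ℤ), (u1 ≠ 0 ∨ u2 ≠ 0) → (v1 ≠ 0 ∨ v2 ≠ 0) →
  ∀ (x : ZMod (5 ^ r)) (y : ZMod (5 ^ s)) (a b c d : ℤ), Pl5 μ a b c d x y →
  edge5 μ u1 u2 v1 v2 G x y = G (a * u1 + 5 ^ μ * b * u2) (5 * c * u1 + d * u2) -
    G (a * v1 + 5 ^ μ * b * v2) (5 * c * v1 + d * v2)

/-- Balanced new symbols, even exponent `n = 2k`. -/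
def BalE5 (k : ℕ) (G : ℤ → ℤ → ℂ) : Prop :=
  SymP 5 k k G ∧ EqC (∑ i ∈ Finset.range 5, act 1 (i * 5 ^ (k - 1)) 0 1 G) 0 ∧
    EqC (∑ i ∈ Finset.range 5, act 1 0 (i * 5 ^ (k - 1)) 1 G) 0 ∧
    EqC (act 0 (-1) 1 0 G) (-G) ∧ EqC (act (-1) 0 0 1 G) G

/-- Balanced new symbols, odd exponent `n = 2k+1`. -/
def BalO5 (k : ℕ) (G : ℤ → ℤ → ℂ) : Prop :=
  SymP 5 k (k + 1) G ∧ EqC (∑ i ∈ Finset.range 5, act 1 (i * 5 ^ (k - 1)) 0 1 G) 0 ∧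
    EqC (∑ i ∈ Finset.range 5, act 1 0 (i * 5 ^ k) 1 G) 0 ∧
    EqC (act 0 (-1) 5 0 G) (-G) ∧ EqC (act (-1) 0 0 1 G) G

/-- BAL. Transport to the balanced form by `(1 0; 0 5^k)` (matrix identities up to scalars, for instance `(5 i; 0 5) (1 0; 0 5^k) = 5 (1 0; 0 5^k) (1 i5^(k-1); 0 1)`,
`(1 0; i5^(n-1) 1) (1 0; 0 5^k) = (1 0; 0 5^k) (1 0; i5^(n-1-k) 1)`, `(0 -1; 5^(2k) 0) (1 0; 0 5^k) = 5^k (1 0; 0 5^k) (0 -1; 1 0)`, `(0 -1; 5^(2k+1) 0) (1 0; 0 5^k) = 5^k (1 0; 0 5^k) (0 -1; 5 0)`;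
`act M (act M' G) = act (M' M) G`). -/
def S5Bal : Prop := ∀ (k : ℕ) (G : ℤ → ℤ → ℂ), 1 ≤ k →
  (NewSymP 5 (2 * k) G → BalE5 k (act 1 0 0 (5 ^ k) G)) ∧
  (NewSymP 5 (2 * k + 1) G → BalO5 k (act 1 0 0 (5 ^ k) G)) ∧
  (Homog G → EqC (act 1 0 0 (5 ^ k) G) 0 → EqC G 0)

/-! ### Functions on the plane `(ZMod (5^m))²` -/

/-- The plane. -/
abbrev Pt (m : ℕ) : Type := ZMod (5 ^ m) × ZMod (5 ^ m)

/-- Right translation by `(a 5^μ b; 5c d)`, on points: `(x, y) ↦ ((b + d x)/(a + 5^(μ+1) c x), (c + a y)/(d + 5^(μ+1) b y))`. -/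
def trp (μ : ℕ) (a b c d : ℤ) {m : ℕ} (p : Pt m) : Pt m :=
  (((b : ZMod (5 ^ m)) + d * p.1) * ((a : ZMod (5 ^ m)) + 5 ^ (μ + 1) * c * p.1)⁻¹,
    ((c : ZMod (5 ^ m)) + a * p.2) * ((d : ZMod (5 ^ m)) + 5 ^ (μ + 1) * b * p.2)⁻¹)

/-- `(x, y) ↦ (-x, -y)`. -/
def ng {m : ℕ} (p : Pt m) : Pt m := (-p.1, -p.2)

/-- `(x, y) ↦ (y, x)`. -/
def sw {m : ℕ} (p : Pt m) : Pt m := (p.2, p.1)

/-- Even exponent (`μ = 1`): the circle over `[1, 3/2]`. -/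
def c1 {m : ℕ} (p : Pt m) : Pt m := trp 1 4 (-1) 1 (-6) (sw p)

/-- Even exponent: the circle over `[4/3, 2]`. -/
def c2 {m : ℕ} (p : Pt m) : Pt m := trp 1 3 (-1) 1 (-8) (sw p)

/-- Even exponent: the circle over `[2, 3]`. -/
def c3 {m : ℕ} (p : Pt m) : Pt m := trp 1 2 (-1) 1 (-12) (sw p)

/-- Odd exponent (`μ = 0`): the circle around `1/2`. -/
def cO {m : ℕ} (p : Pt m) : Pt m := trp 0 2 (-1) 1 (-2) (sw p)

/-- The vertical line: `(x, y) ↦ (-1-x, -y/(1+5^(μ+1) y))`. -/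
def dR (μ : ℕ) {m : ℕ} (p : Pt m) : Pt m := trp μ 1 (-1) 0 1 (ng p)

/-- The maps `r`, `r'` are commuting involutions. -/
def Kl {m : ℕ} (r r' : Pt m → Pt m) : Prop :=
  (∀ p, r (r p) = p) ∧ (∀ p, r' (r' p) = p) ∧ ∀ p, r (r' p) = r' (r p)

/-- `φ` has derivative `s` modulo `5`. -/
def Dv {m : ℕ} (s : ℤ) (φ : ZMod (5 ^ m) → ZMod (5 ^ m)) : Prop :=
  ∀ (i : ℕ) (x x' : ZMod (5 ^ m)), (5 : ZMod (5 ^ m)) ^ i ∣ x - x' →
    (5 : ZMod (5 ^ m)) ^ (i + 1) ∣ φ x - φ x' - s * (x - x')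

/-- Type `0`: `(x, y) ↦ (φ x, φ' y)` with derivatives `-1`; type `1`: `(x, y) ↦ (ψ y, ψ' x)` with derivatives `s`, `s = 1` or `s = -1`. -/
def Ty {m : ℕ} (n : ℕ) (r : Pt m → Pt m) : Prop :=
  (n = 0 ∧ ∃ φ φ' : ZMod (5 ^ m) → ZMod (5 ^ m), Dv (-1) φ ∧ Dv (-1) φ' ∧ ∀ p, r p = (φ p.1, φ' p.2)) ∨
  (n = 1 ∧ ∃ (s : ℤ) (ψ ψ' : ZMod (5 ^ m) → ZMod (5 ^ m)), (s = 1 ∨ s = -1) ∧ Dv s ψ ∧ Dv s ψ' ∧
    ∀ p, r p = (ψ p.2, ψ' p.1))

/-- TYP. The maps above and their types. Proof. `trp μ M' (trp μ M p) = trp μ (M M') p` for the matrices `M = (a 5^μ b; 5c d)` etc. (denominators are units as `5 ∤ a, d`; `trp` does not change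
under scalars), `sw (trp μ a b c d p) = trp μ d c b a (sw p)`, `ng (trp μ a b c d p) = trp μ a (-b) (-c) d (ng p)`; so all the relations are identities of matrices up to a scalar
(for instance `c1 c1 p = trp (M^s M) p`, `M = (4 -5; 5 -6)`, `M^s = (-6 5; -5 4)`, `M^s M = 1`). Derivatives: `(b + d x)/(a + 5^(μ+1) c x)` has derivative `(ad - 5^(μ+1) bc)/a² ≡ 1/a²` modulo `5`
(difference quotient `(x - x')(ad - 5^(μ+1)bc)/((a+..)(a+..))`), that is `1` for `a = ±1, ±4`, `-1` for `a = ±2, ±3`. -/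
def S5Typ : Prop := ∀ m : ℕ,
  (Kl (ng : Pt m → Pt m) sw ∧ Ty 0 (ng : Pt m → Pt m) ∧ Ty 1 (sw : Pt m → Pt m) ∧ Ty 1 (fun p : Pt m => ng (sw p))) ∧
  (Kl (c1 : Pt m → Pt m) c2 ∧ Ty 1 (c1 : Pt m → Pt m) ∧ Ty 1 (c2 : Pt m → Pt m) ∧ Ty 0 (fun p : Pt m => c1 (c2 p))) ∧
  (Kl (dR 1 : Pt m → Pt m) c3 ∧ Ty 0 (dR 1 : Pt m → Pt m) ∧ Ty 1 (c3 : Pt m → Pt m) ∧ Ty 1 (fun p : Pt m => dR 1 (c3 p))) ∧
  (Kl (dR 0 : Pt m → Pt m) cO ∧ Ty 0 (dR 0 : Pt m → Pt m) ∧ Ty 1 (cO : Pt m → Pt m) ∧ Ty 1 (fun p : Pt m => dR 0 (cO p))) ∧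
  (Kl (sw : Pt m → Pt m) cO ∧ Ty 0 (fun p : Pt m => sw (cO p))) ∧
  (∀ p : Pt m, sw (cO p) = trp 0 2 (-1) 1 (-2) p)

/-- Functions on the plane with vanishing sums over the translates by multiples of `5^(m-1)`, in both variables. -/
def anti5 (m : ℕ) : Submodule ℂ (Pt m → ℂ) where
  carrier := {F | ∀ p : Pt m, ∑ i ∈ Finset.range 5, F (p.1 + i * 5 ^ (m - 1), p.2) = 0 ∧
    ∑ i ∈ Finset.range 5, F (p.1, p.2 + i * 5 ^ (m - 1)) = 0}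
  add_mem' := by
    intro F F' h h' p
    simp only [Pi.add_apply, Finset.sum_add_distrib, (h p).1, (h p).2, (h' p).1, (h' p).2, add_zero,
      and_self]
  zero_mem' := by intro p; simp
  smul_mem' := by
    intro c F h p
    simp only [Pi.smul_apply, ← Finset.smul_sum, (h p).1, (h p).2, smul_zero, and_self]

/-- Functions of `anti5 m` with `F∘r = e F`, `F∘r' = e' F`. -/
def inv5 {m : ℕ} (r r' : Pt m → Pt m) (e e' : ℂ) : Submodule ℂ (Pt m → ℂ) where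
  carrier := {F | F ∈ anti5 m ∧ ∀ p : Pt m, F (r p) = e * F p ∧ F (r' p) = e' * F p}
  add_mem' := by
    rintro F F' ⟨h0, h⟩ ⟨h0', h'⟩
    refine ⟨(anti5 m).add_mem h0 h0', fun p => ?_⟩
    simp only [Pi.add_apply, (h p).1, (h p).2, (h' p).1, (h' p).2, mul_add, and_self]
  zero_mem' := ⟨(anti5 m).zero_mem, by intro p; simp⟩
  smul_mem' := by
    rintro c F ⟨h0, h⟩
    refine ⟨(anti5 m).smul_mem c h0, fun p => ?_⟩
    simp only [Pi.smul_apply, smul_eq_mul, (h p).1, (h p).2]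
    constructor <;> ring

/-- DIMK. Dimensions by fixed points. Proof. Use TRQ of W3 (`Pool.Agent.Helper78.W3.S3Trq`, module `Pool/Agent/*/W3/M_Trq.lean`: the dimension of the image of a projection
`P F (i) = ∑_h c h F (a h i)` is `∑_h c h · #{i | a h i = i}`). `t = 5^(m-1)`, `w 0 = 4/5`, `w i = -1/5` (`1 ≤ i ≤ 4`): `∑_i w_i F(x + i t)` is the projection onto functions with vanishing sums; it commutes with
composition with maps of type `0`, `1` (derivative a unit modulo `5`, so translates by `i t` go to translates by `± i t`). For `anti5`: `H = Fin 5 × Fin 5`, total `(4/5)² (5^m)²`. For `inv5`: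
`H = {1, r, r', r r'} × Fin 5 × Fin 5`, `c = (1/4) sign w_i w_j`, `a (x,y) = g (x + i t, y + j t)`. Fixed points: `g = 1`: `25^m` for `i = j = 0`, else none. Type `0`: exactly one (`x ↦ x - φ(x + i t)` is injective:
if `x - x' = φ(..) - φ(..)` then `2 (x - x')` is divisible by `5` times as much as `x - x'`, so `x = x'`), total weight `(∑ w)² = 0`. Type `1`: `x = ψ(y + j t)`, `y = ψ'(x + i t)`, `ψ'∘ψ = 1` (involution): `y = ψ'(ψ(y + jt) + it) =`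
`y + j t + s i t`, so there are `5^m` fixed points if `j + s i ≡ 0` modulo `5`, else none: total `5^m ∑_i w_i w_{-s i} = (4/5) 5^m`. -/
def S5DimK : Prop := ∀ m : ℕ, 1 ≤ m → Module.finrank ℂ (anti5 m) = 16 * 25 ^ (m - 1) ∧
  ∀ (r r' : Pt m → Pt m) (n n' n'' : ℕ) (e e' : ℤ), Kl r r' → Ty n r → Ty n' r' →
    Ty n'' (fun p => r (r' p)) → (e = 1 ∨ e = -1) → (e' = 1 ∨ e' = -1) →
    4 * (Module.finrank ℂ (inv5 r r' (e : ℂ) (e' : ℂ)) : ℤ) =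
      16 * 25 ^ (m - 1) + (e * n + e' * n' + e * e' * n'') * (4 * 5 ^ (m - 1))

/-- SPLIT. Every function of `anti5 m` (`m ≥ 1`) is the sum of one invariant under `ng` and one invariant under `dR μ`. Proof: write `a F = F∘ng`, `d F = F∘dR μ`, `T F = d (a F)`, so
`T F (x, y) = F (x + 1, y/(1 + 5^(μ+1) y))` and `T^h F (x, y) = F (x + 5^(m-1), y)` for `h = 5^(m-1)`. All preserve `anti5 m`. `1 - T` is injective on `anti5 m`: `T g = g` implies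
`g(x + i 5^(m-1), y) = g(x, y)`, so `5 g = 0`; so it is bijective (finite dimension). Let `(1 - T) f = (1 - d) φ`. From `T a = d`: `(1 - T) a f = a f - d f`; and `f = d a f + (1 - d) φ` gives `d f = a f - (1 - d) φ`, so
`(1 - T)(a f - f) = 0`, `a f = f`; `l = φ - f` satisfies `d l = d φ - a f + (1 - d) φ = l`. -/
def S5Split : Prop := ∀ (μ m : ℕ), 1 ≤ m → ∀ φ ∈ anti5 m, ∃ f ∈ anti5 m, ∃ l ∈ anti5 m,
  (∀ p, f (ng p) = f p) ∧ (∀ p, l (dR μ p) = l p) ∧ ∀ p, f p + l p = φ p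

/-- The target for even exponents. -/
def subE (m : ℕ) : Submodule ℂ ((Pt m → ℂ) × (Pt m → ℂ)) where
  carrier := {F | F.1 ∈ anti5 m ∧ F.2 ∈ anti5 m ∧ ∀ p : Pt m,
    F.1 p - F.1 (ng p) + F.1 (sw p) - F.1 (ng (sw p)) = 0 ∧
    F.2 p + F.2 (c1 p) + F.2 (c2 p) + F.2 (c1 (c2 p)) = 0 ∧
    (F.1 p + F.2 p) + (F.1 (c3 p) + F.2 (c3 p)) - (F.1 (dR 1 p) + F.2 (dR 1 p)) -
      (F.1 (dR 1 (c3 p)) + F.2 (dR 1 (c3 p))) = 0}
  add_mem' := by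
    rintro F F' ⟨h0, h1, h⟩ ⟨h0', h1', h'⟩
    refine ⟨(anti5 m).add_mem h0 h0', (anti5 m).add_mem h1 h1', fun p => ?_⟩
    obtain ⟨a1, a2, a3⟩ := h p
    obtain ⟨b1, b2, b3⟩ := h' p
    simp only [Prod.fst_add, Prod.snd_add, Pi.add_apply]
    exact ⟨by linear_combination a1 + b1, by linear_combination a2 + b2,
      by linear_combination a3 + b3⟩
  zero_mem' := ⟨(anti5 m).zero_mem, (anti5 m).zero_mem, by intro p; simp⟩
  smul_mem' := by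
    rintro c F ⟨h0, h1, h⟩
    refine ⟨(anti5 m).smul_mem c h0, (anti5 m).smul_mem c h1, fun p => ?_⟩
    obtain ⟨a1, a2, a3⟩ := h p
    simp only [Prod.smul_fst, Prod.smul_snd, Pi.smul_apply, smul_eq_mul]
    exact ⟨by linear_combination c * a1, by linear_combination c * a2, by linear_combination c * a3⟩

/-- The target for odd exponents. -/
def subO (m : ℕ) : Submodule ℂ ((Pt m → ℂ) × (Pt m → ℂ)) where
  carrier := {F | F.1 ∈ inv5 (m := m) ng sw 1 1 ∧ F.2 ∈ inv5 (m := m) (dR 0) cO 1 1 ∧ ∀ p : Pt m,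
    (F.1 p - F.2 p) + (F.1 (sw (cO p)) - F.2 (sw (cO p))) = 0}
  add_mem' := by
    rintro F F' ⟨h0, h1, h⟩ ⟨h0', h1', h'⟩
    refine ⟨Submodule.add_mem _ h0 h0', Submodule.add_mem _ h1 h1', fun p => ?_⟩
    have a1 := h p
    have b1 := h' p
    simp only [Prod.fst_add, Prod.snd_add, Pi.add_apply]
    linear_combination a1 + b1
  zero_mem' := ⟨Submodule.zero_mem _, Submodule.zero_mem _, by intro p; simp⟩
  smul_mem' := by
    rintro c F ⟨h0, h1, h⟩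
    refine ⟨Submodule.smul_mem _ c h0, Submodule.smul_mem _ c h1, fun p => ?_⟩
    have a1 := h p
    simp only [Prod.smul_fst, Prod.smul_snd, Pi.smul_apply, smul_eq_mul]
    linear_combination c * a1

/-- DIME (from TYP, DIMK, SPLIT). Proof. `V = anti5 m`. `V1 = {F ∈ V | F - F∘ng + F∘sw - F∘ng∘sw = 0}` is the kernel on `V` of `4` times the projection onto `inv5 ng sw (-1) 1` (of dimension `4·25^(m-1)` by DIMK), so
`dim V1 = 12·25^(m-1)`; `V2 = {F ∈ V | F + F∘c1 + F∘c2 + F∘c1∘c2 = 0}`: `inv5 c1 c2 1 1` has dimension `4·25^(m-1) + 2·5^(m-1)`, so `dim V2 = 12·25^(m-1) - 2·5^(m-1)`. The map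
`(F1, F2) ↦ P3 (F1 + F2)`, `P3 F = F + F∘c3 - F∘dR 1 - F∘(dR 1)∘c3`, from `V1 × V2` to `inv5 (dR 1) c3 (-1) 1` (dimension `4·25^(m-1)`) is onto: for `φ` in the target take `f + l = φ` by SPLIT (`μ = 1`),
`F1 = f` (in `V1`), `F2 = 0`: `P3 f = P3 φ - P3 l = 4 φ`. Its kernel is `subE m`, of dimension `20·25^(m-1) - 2·5^(m-1)`. -/
def S5DimE : Prop := ∀ m : ℕ, 1 ≤ m →
  Module.finrank ℂ (subE m) = 20 * 25 ^ (m - 1) - 2 * 5 ^ (m - 1)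

/-- DIMO (from TYP, DIMK, SPLIT). Proof. `Vf = inv5 ng sw 1 1`, `Vl = inv5 (dR 0) cO 1 1`, `Vp = inv5 sw cO 1 1` all have dimension `4·25^(m-1) + 2·5^(m-1)` (DIMK). The map
`(f, l) ↦ (f - l) + (f - l)∘sw∘cO` from `Vf × Vl` to `Vp` (for `f∘sw = f` the function `f + f∘sw∘cO = f + f∘cO` is invariant under `sw` and `cO`, which commute; the same for `l`) is onto: for `φ` in `Vp` let
`f0 - l0 = φ` by SPLIT (`μ = 0`), `f = (f0 + f0∘sw)/2`, `l = (l0 + l0∘cO)/2`; then `f` is in `Vf` (`ng` commutes with `sw`), `l` in `Vl`, and the image is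
`(1/2) ∑_κ (f0 - l0)∘κ = 2 φ`, `κ` in `{1, sw, cO, sw∘cO}`. Its kernel is `subO m`. -/
def S5DimO : Prop := ∀ m : ℕ, 1 ≤ m →
  Module.finrank ℂ (subO m) = 4 * 25 ^ (m - 1) + 2 * 5 ^ (m - 1)

/-- E1 (from EDG, PLA, TYP, FAR of CV). Even exponent `n = 2k`, `k ≥ 2`, plane `m = k - 1`, `μ = 1`. `F1(g) = G(g∞) - G(g1)`, `F2(g) = G(g1) - G(g2)` for `g = (a 5b; 5c d)`. Proof. (i) `(1 i5^(k-1); 0 1) g` has the
coordinates `(x + i (d/a) 5^(k-2), y)` (take `g` standard, `a = 1`, `d ≡ 1` modulo `5`), `(1 0; i5^(k-1) 1) g` has `(x, y + i (a/d) 5^(k-2))`: `F1, F2 ∈ anti5`. (ii) Reflections. Let `ρ` be an integral matrix of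
determinant `-1` and `ρ' = * ρ` or `ρ' = b ρ`, `b = (0 1; 1 0)`, be of the form `(a 5b; 5c d)`; then `g ρ = * (* g *) ρ'`, resp. `g ρ = b (b g b) ρ'`, where `* g *` has coordinates `ng (x,y)`, `b g b` has `sw (x,y)`,
and `G∘* ≈ G`, `G∘b ≈ -G` (`b = -S *`). So, for a path `π`, the value of `G` at `g ρ π` is `± F_π(..)`: for `a = (-1 0; 0 1)`: `F_π(ng p)`; `b`: `-F_π(sw p)`; `(5 -6; 4 -5)`: `-F_π(c1 p)`; `(5 -8; 3 -5)`:
`-F_π(c2 p)`; `(5 -12; 2 -5)`: `-F_π(c3 p)`; `(-1 5; 0 1)`: `F_π(dR 1 p)`. The first equation of `subE` is the closed path `(∞→1) .. ` of the square `∞, 1, 0, -1` (`a: 1 ↦ -1`, `b: ∞ ↦ 0`): with `{u,v} = G(gu) - G(gv)`: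
`F1(p) = {∞,1}`, `F1(ng p) = {∞,-1}`, `F1(sw p) = -{0,1}`, `F1(ng (sw p)) = -{0,-1}`. Second: square `1, 2, 3/2, 4/3`: `F2(p) = {1,2}`, `F2(c1 p) = -{1,4/3}`, `F2(c2 p) = -{3/2,2}`, `F2(c1 c2 p) = {3/2,4/3}`. Third:
square `∞, 2, 5/2, 3`: `F3 = F1 + F2 = {∞,2}`, `F3(c3 p) = -{5/2,2}`, `F3(dR p) = {∞,3}`, `F3(dR (c3 p)) = -{5/2,3}` (`(5 -12; 2 -5)` fixes `2, 3`, swaps `∞, 5/2`; `(-1 5; 0 1)` swaps `2, 3`). (iii) Injectivity: let `F1 = F2 = 0` and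
write `v ~ w` if `G(gv) = G(gw)` for all `g = (a 5b; 5c d)`; this relation is invariant under the group generated by these `g`, `*` and `b`. `∞ ~ 1 ~ 2`; `*`: `∞ ~ -1 ~ -2`; `b`: `0 ~ ±1 ~ ±1/2`; `(-1 5; 0 1)`: `∞ ~ 3`;
so `0 ~ ±1/3`; `(5 -8; 3 -5)`: `1 ↦ 3/2`, `2 ↦ 2`: `3/2 ~ 2`; `b`: `2/3 ~ 1/2`. So the cusps `∞, 0, ±1, ±2, ±3, ±1/2, ±1/3, ±3/2, ±2/3` are all equivalent, and every `g` in `SL₂(ℤ)` is `g' ρ`, `g' = (a 5b; 5c d)`, `ρ` one of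
the thirty matrices listed in the proof of `S5B3b`: FAR. -/
def S5E1 : Prop := ∀ (k : ℕ) (G : ℤ → ℤ → ℂ), 2 ≤ k → BalE5 k G →
  ((fun p : Pt (k - 1) => edge5 1 1 0 1 1 G p.1 p.2), (fun p : Pt (k - 1) => edge5 1 1 1 2 1 G p.1 p.2)) ∈
    subE (k - 1) ∧
  ((∀ x y : ZMod (5 ^ (k - 1)), edge5 1 1 0 1 1 G x y = 0 ∧ edge5 1 1 1 2 1 G x y = 0) → EqC G 0)

/-- O1 (from EDG, PLA, TYP, FAR of CV). Odd exponent `n = 2k+1`, `k ≥ 1`, plane `m = k`, `μ = 0`. `f(g) = G(g∞) - G(g0)`, `l(g) = G(g∞) - G(g½)` for `g` in `Γ₀(5)`. Proof. (i) `anti5` as in E1 with `(1 i5^(k-1); 0 1) g`,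
`(1 0; i5^k 1) g`. (ii) `b = (0 1; 5 0)` (`b = W *` up to sign, `W = (0 -1; 5 0)`), `b⁻¹ g b` has coordinates `sw (x,y)`, `G∘b ≈ -G`; `g ρ = b (b⁻¹ g b) (b⁻¹ ρ)`. `f(ng p) = f(p)`, `f(sw p) = f(p)` (`b` swaps `0, ∞`). `l`: `(-1 1; 0 1)`
fixes `∞` and `½`: `l(dR 0 p) = l(p)`; `(5 -2; 10 -5) = b (2 -1; 5 -2)` swaps `∞` and `½`: `l(cO p) = l(p)`. `h = f - l = G(g½) - G(g0)`: `(2 -1; 5 -2)` swaps `0` and `½`: `h(trp 0 2 (-1) 1 (-2) p) = -h(p)`. (iii) Injectivity: if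
`f = l = 0` then (notation of E1, for `g` in `Γ₀(5)`) `∞ ~ 0 ~ ½`, `1 ~ 0` (translation by `1` of `∞ ~ 0`), `-1 ~ 0`; every `g` in `SL₂(ℤ)` is `g' ρ` with `g'` in `Γ₀(5)` and `ρ` one of `1`, `(0 -1; 1 0)`, `(1 0; 1 1)`, `(1 0; -1 1)`, `(1 0; 2 1)`,
`(1 1; 1 2)` (bottom row modulo `5` up to scalars), all with equivalent cusps `ρ0`, `ρ∞`: FAR. -/
def S5O1 : Prop := ∀ (k : ℕ) (G : ℤ → ℤ → ℂ), 1 ≤ k → BalO5 k G →
  ((fun p : Pt k => edge5 0 1 0 0 1 G p.1 p.2), (fun p : Pt k => edge5 0 1 0 1 2 G p.1 p.2)) ∈ subO k ∧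
  ((∀ x y : ZMod (5 ^ k), edge5 0 1 0 0 1 G x y = 0 ∧ edge5 0 1 0 1 2 G x y = 0) → EqC G 0)

/-- UB from BAL, E1, O1, DIME, DIMO. For `n = 2k ≥ 4` compose `G ↦` (balanced form) `↦ (F1, F2)`, a linear map into `subE (k-1)`, of dimension `20·25^(k-2) - 2·5^(k-2) = dd5 n`; for `n = 2k+1 ≥ 3` the map to
`(f, l)` in `subO k`, of dimension `dd5 n`. Model: `S3UBof`. -/
def S5UBof : Prop := S5Bal → S5E1 → S5O1 → S5DimE → S5DimO → S5UB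

end Pool.Agent.Helper14.W5
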